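import Pool.Agent.R934.LB.Lat
set_option autoImplicit false
set_option linter.unusedVariables false

/-! Progressions inside a ball of a lattice. -/

open scoped Classical Pointwise
open Finset

namespace Pool.Agent.R934.LB

/-- The progression `{a + ∑ kᵢ vᵢ : 0 ≤ kᵢ < Nᵢ}`. -/
def Prog {G : Type} [AddCommGroup G] {d : ℕ} (a : G) (v : Fin d → G) (N : Fin d → ℕ) : Set G :=
  {x : G | ∃ k : Fin d → ℕ, (∀ i, k i < N i) ∧ x = a + ∑ i, k i • v i}

/-- The translate by `x` of `m A - m A`: all `x + (f₁ + ... + fₘ) - (g₁ + ... + gₘ)`, `fⱼ, gⱼ ∈ A`. -/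
def Transl {G : Type} [AddCommGroup G] (A : Set G) (m : ℕ) (x : G) : Set G :=
  {y : G | ∃ f g : Fin m → G, (∀ j, f j ∈ A) ∧ (∀ j, g j ∈ A) ∧ y = x + (∑ j, f j - ∑ j, g j)}

theorem prog_finite {G : Type} [AddCommGroup G] {d : ℕ} (a : G) (v : Fin d → G) (N : Fin d → ℕ) :
    (Prog a v N).Finite := by
  apply ((Fintype.piFinset fun i => Finset.range (N i)).finite_toSet.image
    (fun k : Fin d → ℕ => a + ∑ i, k i • v i)).subset
  rintro x ⟨k, hk, rfl⟩
  exact ⟨k, by rw [Finset.mem_coe, Fintype.mem_piFinset]; exact fun i => Finset.mem_range.2 (hk i), rfl⟩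

theorem sq_add {n : ℕ} (x y : Fin n → ℤ) : sq (x + y) = sq x + 2 * (∑ i, x i * y i) + sq y := by
  unfold sq
  rw [Finset.mul_sum, ← Finset.sum_add_distrib, ← Finset.sum_add_distrib]
  apply Finset.sum_congr rfl
  intro i _
  rw [Pi.add_apply]
  ring

theorem exists_signs {n : ℕ} {ι : Type*} (s : Finset ι) (w : ι → Fin n → ℤ) (c : Fin n → ℤ) :
    ∃ σ : ι → ℤ, (∀ i, σ i = 1 ∨ σ i = -1) ∧
      sq c + ∑ i ∈ s, sq (w i) ≤ sq (c + ∑ i ∈ s, σ i • w i) := by
  induction s using Finset.induction_on with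
  | empty => exact ⟨fun _ => 1, fun _ => Or.inl rfl, by simp⟩
  | insert a s ha ih =>
    obtain ⟨σ, hσ, h⟩ := ih
    set y := c + ∑ i ∈ s, σ i • w i with hy
    obtain ⟨t, ht, ht2⟩ : ∃ t : ℤ, (t = 1 ∨ t = -1) ∧ sq y + sq (w a) ≤ sq (y + t • w a) := by
      rcases le_total 0 (∑ i, y i * w a i) with h0 | h0
      · refine ⟨1, Or.inl rfl, ?_⟩
        rw [one_smul]
        have h9 := sq_add y (w a)
        linarith
      · refine ⟨-1, Or.inr rfl, ?_⟩
        rw [neg_smul, one_smul]
        have h9 := sq_add y (-w a)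
        rw [sq_neg] at h9
        have h1 : ∑ i, y i * (-w a) i = -∑ i, y i * w a i := by
          rw [← Finset.sum_neg_distrib]
          exact Finset.sum_congr rfl fun i _ => by rw [Pi.neg_apply]; ring
        rw [h1] at h9
        linarith
    refine ⟨Function.update σ a t, ?_, ?_⟩
    · intro i
      by_cases hi : i = a
      · rw [hi, Function.update_self]; exact ht
      · rw [Function.update_of_ne hi]; exact hσ i
    · rw [Finset.sum_insert ha, Finset.sum_insert ha, Function.update_self]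
      have h1 : ∑ i ∈ s, Function.update σ a t i • w i = ∑ i ∈ s, σ i • w i := by
        apply Finset.sum_congr rfl
        intro i hi
        rw [Function.update_of_ne]
        rintro rfl
        exact ha hi
      rw [h1]
      have h2 : c + (t • w a + ∑ i ∈ s, σ i • w i) = y + t • w a := by rw [hy]; abel
      rw [h2]
      linarith

theorem sq_smul {n : ℕ} (t : ℤ) (x : Fin n → ℤ) : sq (t • x) = t ^ 2 * sq x := by
  unfold sq
  rw [Finset.mul_sum]
  exact Finset.sum_congr rfl fun i _ => by rw [Pi.smul_apply, smul_eq_mul]; ring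

theorem sq_sum_le {n m : ℕ} (f : Fin m → Fin n → ℤ) (R : ℤ) (hf : ∀ j, sq (f j) ≤ R) :
    sq (∑ j, f j) ≤ (m : ℤ) ^ 2 * R := by
  have h1 : sq (∑ j, f j) ≤ m * ∑ j, sq (f j) := by
    unfold sq
    rw [Finset.sum_comm, Finset.mul_sum]
    apply Finset.sum_le_sum
    intro i _
    rw [Finset.sum_apply]
    have := sq_sum_le_card_mul_sum_sq (s := (Finset.univ : Finset (Fin m))) (f := fun j => f j i)
    rwa [Finset.card_univ, Fintype.card_fin] at this
  have h2 : ∑ j, sq (f j) ≤ m * R := by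
    calc ∑ j, sq (f j) ≤ ∑ j : Fin m, R := Finset.sum_le_sum fun j _ => hf j
      _ = m * R := by rw [Finset.sum_const, Finset.card_univ, Fintype.card_fin, nsmul_eq_mul]
  calc sq (∑ j, f j) ≤ m * ∑ j, sq (f j) := h1
    _ ≤ m * (m * R) := mul_le_mul_of_nonneg_left h2 (Nat.cast_nonneg m)
    _ = (m : ℤ) ^ 2 * R := by ring

/-- points of a translate of `m A - m A` are congruent and near to its centre -/
theorem transl_bound {n p : ℕ} (hn : 1 ≤ n) (u : Fin n → ZMod p) (s m : ℕ) (x y : Fin n → ℤ)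
    (hy : y ∈ Transl (Bl u s 1 : Set (Fin n → ℤ)) m x) :
    y - x ∈ Lat u ∧ sq (y - x) ≤ (m : ℤ) ^ 2 * (4 * ((s : ℤ) ^ 2 * n)) := by
  obtain ⟨f, g, hf, hg, rfl⟩ := hy
  have hf' : ∀ j, f j ∈ Lat u ∧ sq (f j) ≤ (s : ℤ) ^ 2 * n := by
    intro j
    have := (mem_Bl hn u s 1 _).1 (hf j)
    push_cast at this
    rwa [one_mul] at this
  have hg' : ∀ j, g j ∈ Lat u ∧ sq (g j) ≤ (s : ℤ) ^ 2 * n := by
    intro j
    have := (mem_Bl hn u s 1 _).1 (hg j)
    push_cast at this
    rwa [one_mul] at this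
  rw [add_sub_cancel_left, ← Finset.sum_sub_distrib]
  constructor
  · exact (Lat u).sum_mem fun j _ => (Lat u).sub_mem (hf' j).1 (hg' j).1
  · apply sq_sum_le
    intro j
    have := sq_sub_le (f j) (g j)
    linarith [(hf' j).2, (hg' j).2]

/-- A progression inside a translate of `m A - m A` is small. -/
theorem contained {n p q ρ : ℕ} (hn : 1 ≤ n) (hq : 1 ≤ q) (u : Fin n → ZMod p)
    (hu : ∀ z ∈ Lat u, z ≠ 0 → (q : ℤ) ^ 2 * n < sq z) (m d : ℕ) (x a : Fin n → ℤ)
    (v : Fin d → Fin n → ℤ) (N : Fin d → ℕ)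
    (hP : Prog a v N ⊆ Transl (Bl u (ρ * q) 1 : Set (Fin n → ℤ)) m x) :
    ((Prog a v N).ncard : ℝ) ≤ Real.exp (16 * (ρ : ℝ) ^ 2 * (m : ℝ) ^ 2) := by
  by_cases hN : ∃ i, N i = 0
  · obtain ⟨i, hi⟩ := hN
    have : Prog a v N = ∅ := by
      ext y
      simp only [Prog, Set.mem_ofPred_eq, Set.mem_empty_iff_false, iff_false]
      rintro ⟨k, hk, -⟩
      have := hk i
      omega
    rw [this, Set.ncard_empty]
    exact_mod_cast (Real.exp_pos _).le
  push Not at hN
  have hN1 : ∀ i, 1 ≤ N i := fun i => Nat.one_le_iff_ne_zero.2 (hN i)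
  -- the essential generators
  set I : Finset (Fin d) := Finset.univ.filter (fun i => v i ≠ 0 ∧ 2 ≤ N i) with hI
  -- they are in the lattice
  have haP : a ∈ Prog a v N := ⟨0, fun i => Nat.pos_of_ne_zero (hN i), by simp⟩
  have hlat : ∀ i ∈ I, v i ∈ Lat u := by
    intro i hi
    rw [hI, Finset.mem_filter] at hi
    have h1 : a + v i ∈ Prog a v N := by
      refine ⟨Pi.single i 1, ?_, ?_⟩
      · intro j
        by_cases hj : j = i
        · subst hj; rw [Pi.single_eq_same]; omega
        · rw [Pi.single_eq_of_ne hj]; exact hN1 j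
      · congr 1
        rw [Finset.sum_eq_single i]
        · simp
        · intro j _ hj; rw [Pi.single_eq_of_ne hj, zero_smul]
        · intro h; exact absurd (Finset.mem_univ _) h
    have h2 := (transl_bound hn u _ _ _ _ (hP haP)).1
    have h3 := (transl_bound hn u _ _ _ _ (hP h1)).1
    have h4 := (Lat u).sub_mem h3 h2
    have h5 : a + v i - x - (a - x) = v i := by abel
    rwa [h5] at h4
  -- corners
  set w : Fin d → Fin n → ℤ := fun i => ((N i : ℤ) - 1) • v i with hw
  set c : Fin n → ℤ := (2 : ℤ) • (a - x) + ∑ i, w i with hc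
  obtain ⟨σ, hσ, hs⟩ := exists_signs Finset.univ w c
  set k : Fin d → ℕ := fun i => if σ i = 1 then N i - 1 else 0 with hk
  have hkP : a + ∑ i, k i • v i ∈ Prog a v N := by
    refine ⟨k, fun i => ?_, rfl⟩
    have := hN1 i
    simp only [hk]
    split_ifs <;> omega
  have h1 := (transl_bound hn u _ _ _ _ (hP hkP)).2
  have h2 : c + ∑ i, σ i • w i = (2 : ℤ) • (a + ∑ i, k i • v i - x) := by
    rw [hc]
    have h3 : ∑ i, w i + ∑ i, σ i • w i = (2 : ℤ) • ∑ i, k i • v i := by
      rw [← Finset.sum_add_distrib, Finset.smul_sum]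
      apply Finset.sum_congr rfl
      intro i _
      have hNi := hN1 i
      rcases hσ i with h | h
      · have h4 : k i = N i - 1 := by simp [hk, h]
        have h5 : ((N i : ℤ) - 1) = ((N i - 1 : ℕ) : ℤ) := by push_cast [Nat.cast_sub hNi]; ring
        rw [h, h4, hw]
        simp only
        rw [h5, one_smul, natCast_zsmul, two_smul]
      · have h4 : k i = 0 := by simp [hk, h]
        rw [h, h4]
        simp
    calc (2 : ℤ) • (a - x) + ∑ i, w i + ∑ i, σ i • w i
        = (2 : ℤ) • (a - x) + (∑ i, w i + ∑ i, σ i • w i) := by abel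
      _ = (2 : ℤ) • (a - x) + (2 : ℤ) • ∑ i, k i • v i := by rw [h3]
      _ = (2 : ℤ) • (a + ∑ i, k i • v i - x) := by rw [← smul_add]; congr 1; abel
  rw [h2, sq_smul] at hs
  -- sum of squares of the side lengths
  have h3 : ∑ i ∈ I, ((N i : ℤ) - 1) ^ 2 * ((q : ℤ) ^ 2 * n) ≤
      16 * (m : ℤ) ^ 2 * (ρ : ℤ) ^ 2 * ((q : ℤ) ^ 2 * n) := by
    calc ∑ i ∈ I, ((N i : ℤ) - 1) ^ 2 * ((q : ℤ) ^ 2 * n) ≤ ∑ i ∈ I, sq (w i) := by
          apply Finset.sum_le_sum
          intro i hi
          rw [hw]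
          simp only
          rw [sq_smul]
          apply mul_le_mul_of_nonneg_left _ (sq_nonneg _)
          have hi' := hi
          rw [hI, Finset.mem_filter] at hi'
          exact (hu _ (hlat i hi) hi'.2.1).le
      _ ≤ ∑ i, sq (w i) :=
          Finset.sum_le_sum_of_subset_of_nonneg (Finset.subset_univ _) fun i _ _ => sq_nonneg' _
      _ ≤ 2 ^ 2 * sq (a + ∑ i, k i • v i - x) := by linarith [sq_nonneg' c]
      _ ≤ 2 ^ 2 * ((m : ℤ) ^ 2 * (4 * (((ρ * q : ℕ) : ℤ) ^ 2 * n))) := by linarith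
      _ = 16 * (m : ℤ) ^ 2 * (ρ : ℤ) ^ 2 * ((q : ℤ) ^ 2 * n) := by push_cast; ring
  rw [← Finset.sum_mul] at h3
  have hqn : (0 : ℤ) < (q : ℤ) ^ 2 * n := by
    have : (0 : ℤ) < n := by exact_mod_cast hn
    have : (0 : ℤ) < q := by exact_mod_cast hq
    positivity
  have h4 := le_of_mul_le_mul_right h3 hqn
  have h5 : ∑ i ∈ I, ((N i : ℝ) - 1) ^ 2 ≤ 16 * (ρ : ℝ) ^ 2 * (m : ℝ) ^ 2 := by
    have : ((∑ i ∈ I, ((N i : ℤ) - 1) ^ 2 : ℤ) : ℝ) ≤
        ((16 * (m : ℤ) ^ 2 * (ρ : ℤ) ^ 2 : ℤ) : ℝ) := by exact_mod_cast h4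
    push_cast at this
    linarith
  -- size
  have h6 : (Prog a v N).ncard ≤ ∏ i ∈ I, N i := by
    have h7 : Prog a v N ⊆ ((Fintype.piFinset fun i : Fin d =>
        if i ∈ I then Finset.range (N i) else {0}).image
        (fun k : Fin d → ℕ => a + ∑ i, k i • v i) : Set (Fin n → ℤ)) := by
      rintro y ⟨k, hk, rfl⟩
      rw [Finset.coe_image]
      refine ⟨fun i => if i ∈ I then k i else 0, ?_, ?_⟩
      · rw [Finset.mem_coe, Fintype.mem_piFinset]
        intro i
        by_cases hi : i ∈ I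
        · simp only [hi, if_true]; exact Finset.mem_range.2 (hk i)
        · simp only [hi, if_false]; exact Finset.mem_singleton_self _
      · simp only
        congr 1
        apply Finset.sum_congr rfl
        intro i _
        by_cases hi : i ∈ I
        · simp only [hi, if_true]
        · simp only [hi, if_false]
          rw [hI, Finset.mem_filter] at hi
          push Not at hi
          by_cases hv : v i = 0
          · rw [hv]; simp
          · have := hi (Finset.mem_univ _) hv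
            have h8 : k i = 0 := by have := hk i; omega
            rw [h8]
    calc (Prog a v N).ncard ≤ _ := Set.ncard_le_ncard h7 (Finset.finite_toSet _)
      _ = _ := Set.ncard_coe_finset _
      _ ≤ _ := Finset.card_image_le
      _ = ∏ i, (if i ∈ I then N i else 1) := by
          rw [Fintype.card_piFinset]
          apply Finset.prod_congr rfl
          intro i _
          split_ifs <;> simp
      _ = ∏ i ∈ I, N i := by
          rw [Finset.prod_ite, Finset.prod_const_one, mul_one]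
          congr 1
          ext i; simp
  calc ((Prog a v N).ncard : ℝ) ≤ ((∏ i ∈ I, N i : ℕ) : ℝ) := by exact_mod_cast h6
    _ = ∏ i ∈ I, (N i : ℝ) := by push_cast; rfl
    _ ≤ ∏ i ∈ I, Real.exp (((N i : ℝ) - 1) ^ 2) := by
        apply Finset.prod_le_prod
        · intro i _; positivity
        · intro i _
          have h8 : (N i : ℝ) ≤ Real.exp ((N i : ℝ) - 1) := by
            have := Real.add_one_le_exp ((N i : ℝ) - 1)
            linarith
          refine h8.trans (Real.exp_le_exp.2 ?_)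
          obtain ⟨t, ht⟩ : ∃ t, N i = t + 1 := ⟨N i - 1, by have := hN1 i; omega⟩
          rw [ht]
          push_cast
          have h9 : (t : ℝ) ≤ (t : ℝ) ^ 2 := by exact_mod_cast Nat.le_self_pow (by norm_num) t
          linarith
    _ = Real.exp (∑ i ∈ I, ((N i : ℝ) - 1) ^ 2) := by rw [Real.exp_sum]
    _ ≤ _ := Real.exp_le_exp.2 h5

end Pool.Agent.R934.LB
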