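import Mathlib
set_option autoImplicit false
set_option linter.unusedVariables false

/-! The number of integer points in a ball of radius at least the square root of the dimension. -/

open scoped Classical
open Finset

namespace Pool.Agent.R934.LB

/-- squared Euclidean length -/
def sq {n : ℕ} (z : Fin n → ℤ) : ℤ := ∑ i, z i ^ 2

theorem sq_nonneg' {n : ℕ} (z : Fin n → ℤ) : 0 ≤ sq z := Finset.sum_nonneg fun i _ => sq_nonneg _

theorem coord_le {n : ℕ} (z : Fin n → ℤ) (i : Fin n) : z i ^ 2 ≤ sq z :=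
  Finset.single_le_sum (f := fun i => z i ^ 2) (fun j _ => sq_nonneg _) (Finset.mem_univ i)

theorem geom_le {x : ℝ} (h0 : 0 ≤ x) (h1 : x < 1) (M : ℕ) :
    ∑ j ∈ Finset.range M, x ^ j ≤ 1 / (1 - x) := by
  rw [le_div_iff₀ (by linarith), mul_comm, mul_neg_geom_sum]
  have := pow_nonneg h0 M
  linarith

theorem theta_le (y : ℝ) (hy : 0 < y) (M : ℕ) :
    ∑ j ∈ Finset.Icc (-(M : ℤ)) M, Real.exp (-(y ^ 2 / 4 * (j : ℝ) ^ 2)) ≤
      2 * Real.exp 1 * (1 + 1 / y) := by
  set f : ℤ → ℝ := fun j => Real.exp (-(y ^ 2 / 4 * (j : ℝ) ^ 2)) with hf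
  have hfpos : ∀ j, 0 ≤ f j := fun j => (Real.exp_pos _).le
  set x : ℝ := Real.exp (-y) with hx
  have hx0 : 0 ≤ x := (Real.exp_pos _).le
  have hx1 : x < 1 := by rw [hx]; calc Real.exp (-y) < Real.exp 0 := Real.exp_lt_exp.2 (by linarith)
      _ = 1 := Real.exp_zero
  -- pointwise bound
  have hb : ∀ j : ℕ, f (j : ℤ) ≤ Real.exp 1 * x ^ j := by
    intro j
    rw [hf, hx, ← Real.exp_nat_mul, ← Real.exp_add]
    apply Real.exp_le_exp.2
    push_cast
    nlinarith [sq_nonneg (y * j / 2 - 1)]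
  have hneg : ∀ j : ℤ, f (-j) = f j := by
    intro j
    simp only [hf]
    push_cast
    ring_nf
  have hgeo : 1 / (1 - x) ≤ 1 + 1 / y := by
    have h1 : x ≤ 1 / (1 + y) := by
      rw [hx, Real.exp_neg, one_div]
      apply inv_anti₀ (by linarith)
      linarith [Real.add_one_le_exp y]
    have h2 : 1 - x ≥ y / (1 + y) := by
      have : (1:ℝ) - 1 / (1 + y) = y / (1 + y) := by field_simp; ring
      linarith
    have h3 : 0 < y / (1 + y) := by positivity
    calc 1 / (1 - x) ≤ 1 / (y / (1 + y)) := one_div_le_one_div_of_le h3 h2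
      _ = 1 + 1 / y := by field_simp; ring
  have hsum : ∑ j ∈ Finset.range (M + 1), f (j : ℤ) ≤ Real.exp 1 * (1 + 1 / y) := by
    calc ∑ j ∈ Finset.range (M + 1), f (j : ℤ) ≤ ∑ j ∈ Finset.range (M + 1), Real.exp 1 * x ^ j :=
          Finset.sum_le_sum fun j _ => hb j
      _ = Real.exp 1 * ∑ j ∈ Finset.range (M + 1), x ^ j := by rw [Finset.mul_sum]
      _ ≤ Real.exp 1 * (1 + 1 / y) :=
          mul_le_mul_of_nonneg_left ((geom_le hx0 hx1 _).trans hgeo) (Real.exp_pos _).le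
  have hsub : Finset.Icc (-(M : ℤ)) M ⊆
      (Finset.range (M + 1)).image (fun j : ℕ => (j : ℤ)) ∪
      (Finset.range (M + 1)).image (fun j : ℕ => -(j : ℤ)) := by
    intro j hj
    rw [Finset.mem_Icc] at hj
    rw [Finset.mem_union, Finset.mem_image, Finset.mem_image]
    rcases le_total 0 j with h | h
    · left
      exact ⟨j.toNat, by rw [Finset.mem_range]; omega, by omega⟩
    · right
      exact ⟨(-j).toNat, by rw [Finset.mem_range]; omega, by omega⟩
  have h1 := Finset.sum_le_sum_of_subset_of_nonneg (f := f) hsub (fun j _ _ => hfpos j)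
  have h2 := Finset.sum_union_inter (f := f)
    (s₁ := (Finset.range (M + 1)).image (fun j : ℕ => (j : ℤ)))
    (s₂ := (Finset.range (M + 1)).image (fun j : ℕ => -(j : ℤ)))
  have h3 : 0 ≤ ∑ j ∈ ((Finset.range (M + 1)).image (fun j : ℕ => (j : ℤ))) ∩
      ((Finset.range (M + 1)).image (fun j : ℕ => -(j : ℤ))), f j :=
    Finset.sum_nonneg fun j _ => hfpos j
  have h4 : ∑ j ∈ (Finset.range (M + 1)).image (fun j : ℕ => (j : ℤ)), f j =
      ∑ j ∈ Finset.range (M + 1), f (j : ℤ) :=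
    Finset.sum_image (fun a _ b _ h => by simpa using h)
  have h5 : ∑ j ∈ (Finset.range (M + 1)).image (fun j : ℕ => -(j : ℤ)), f j =
      ∑ j ∈ Finset.range (M + 1), f (j : ℤ) := by
    rw [Finset.sum_image (fun a _ b _ h => by simpa using h)]
    exact Finset.sum_congr rfl fun j _ => hneg _
  rw [h4, h5] at h2
  change ∑ j ∈ Finset.Icc (-(M : ℤ)) M, f j ≤ _
  linarith

theorem count_le {n : ℕ} (r : ℝ) (hr : 0 < r) (S : Finset (Fin n → ℤ))
    (hS : ∀ z ∈ S, (sq z : ℝ) ≤ r ^ 2 * n) : (S.card : ℝ) ≤ (15 * (1 + r / 2)) ^ n := by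
  obtain ⟨M, hM⟩ := exists_nat_ge (r ^ 2 * n)
  have hsub : S ⊆ Fintype.piFinset fun _ : Fin n => Finset.Icc (-(M : ℤ)) M := by
    intro z hz
    rw [Fintype.mem_piFinset]
    intro i
    have h1 : (z i : ℝ) ^ 2 ≤ M := by
      have h2 : ((z i ^ 2 : ℤ) : ℝ) ≤ (sq z : ℝ) := by exact_mod_cast coord_le z i
      push_cast at h2
      linarith [hS z hz]
    have h3 : z i ^ 2 ≤ (M : ℤ) := by exact_mod_cast h1
    rw [Finset.mem_Icc]
    constructor
    · nlinarith [sq_nonneg (z i + 1), sq_nonneg (z i)]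
    · nlinarith [sq_nonneg (z i - 1), sq_nonneg (z i)]
  set y : ℝ := 2 / r with hy
  have hy0 : 0 < y := by positivity
  have hyy : y ^ 2 / 4 = 1 / r ^ 2 := by rw [hy]; field_simp; norm_num
  have hz1 : ∀ z ∈ S, (1 : ℝ) ≤ ∏ i, (Real.exp 1 * Real.exp (-(y ^ 2 / 4 * (z i : ℝ) ^ 2))) := by
    intro z hz
    rw [Finset.prod_mul_distrib, Finset.prod_const, Finset.card_univ,
      Fintype.card_fin, ← Real.exp_sum, ← Real.exp_nat_mul, ← Real.exp_add]
    apply Real.one_le_exp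
    rw [Finset.sum_neg_distrib, ← Finset.mul_sum, hyy]
    have h1 : (∑ i, (z i : ℝ) ^ 2) = (sq z : ℝ) := by
      unfold sq
      push_cast
      rfl
    rw [h1]
    have h2 := hS z hz
    have h3 : 1 / r ^ 2 * (sq z : ℝ) ≤ n := by
      rw [one_div, inv_mul_le_iff₀ (by positivity)]
      linarith
    linarith
  calc (S.card : ℝ) = ∑ z ∈ S, (1 : ℝ) := by simp
    _ ≤ ∑ z ∈ S, ∏ i, (Real.exp 1 * Real.exp (-(y ^ 2 / 4 * (z i : ℝ) ^ 2))) :=
        Finset.sum_le_sum hz1
    _ ≤ ∑ z ∈ Fintype.piFinset fun _ : Fin n => Finset.Icc (-(M : ℤ)) M,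
          ∏ i, (Real.exp 1 * Real.exp (-(y ^ 2 / 4 * (z i : ℝ) ^ 2))) :=
        Finset.sum_le_sum_of_subset_of_nonneg hsub fun z _ _ =>
          Finset.prod_nonneg fun i _ => by positivity
    _ = ∏ i : Fin n, ∑ j ∈ Finset.Icc (-(M : ℤ)) M,
          (Real.exp 1 * Real.exp (-(y ^ 2 / 4 * (j : ℝ) ^ 2))) := by
        rw [Finset.prod_univ_sum]
    _ = (Real.exp 1 * ∑ j ∈ Finset.Icc (-(M : ℤ)) M,
          Real.exp (-(y ^ 2 / 4 * (j : ℝ) ^ 2))) ^ n := by
        rw [Finset.prod_const, Finset.card_univ, Fintype.card_fin, Finset.mul_sum]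
    _ ≤ (15 * (1 + r / 2)) ^ n := by
        apply pow_le_pow_left₀
        · exact mul_nonneg (Real.exp_pos _).le (Finset.sum_nonneg fun _ _ => (Real.exp_pos _).le)
        · have h1 := theta_le y hy0 M
          have h2 : 1 / y = r / 2 := by rw [hy]; field_simp
          rw [h2] at h1
          have h3 : Real.exp 1 < 2.7182818286 := Real.exp_one_lt_d9
          have h4 : 0 < Real.exp 1 := Real.exp_pos 1
          have h5 : Real.exp 1 * Real.exp 1 ≤ 7.5 := by nlinarith
          calc Real.exp 1 * ∑ j ∈ Finset.Icc (-(M : ℤ)) M, Real.exp (-(y ^ 2 / 4 * (j : ℝ) ^ 2))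
              ≤ Real.exp 1 * (2 * Real.exp 1 * (1 + r / 2)) := mul_le_mul_of_nonneg_left h1 h4.le
            _ = 2 * (Real.exp 1 * Real.exp 1) * (1 + r / 2) := by ring
            _ ≤ 15 * (1 + r / 2) := by
                apply mul_le_mul_of_nonneg_right _ (by positivity)
                linarith

end Pool.Agent.R934.LB
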