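import Pool.Agent.R934.LB.Main
set_option autoImplicit false
set_option linter.unusedVariables false

/-! Cubes with given directions in dense sets, and the power saving density theorem. -/

open scoped Classical Pointwise
open Finset

namespace Pool.Agent.R934.LB

theorem cs_shift {G : Type*} [AddCommGroup G] [Fintype G] (H : Finset G)
    (hneg : ∀ s ∈ H, ∀ t ∈ H, t - s ∈ H) (hadd : ∀ s ∈ H, ∀ t ∈ H, t + s ∈ H) (E : Finset G) :
    (H.card : ℝ) * (E.card : ℝ) ^ 2 ≤
      (Fintype.card G : ℝ) * ∑ s ∈ H, ((E.filter (fun k => k + s ∈ E)).card : ℝ) := by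
  rcases H.eq_empty_or_nonempty with rfl | hHne
  · simp
  have hHpos : (0 : ℝ) < H.card := by exact_mod_cast hHne.card_pos
  set f : G → ℝ := fun k => if k ∈ E then 1 else 0 with hf
  have hEs : ∀ s, ((E.filter (fun k => k + s ∈ E)).card : ℝ) = ∑ k, f k * f (k + s) := by
    intro s
    rw [Finset.card_filter]
    push_cast
    rw [← Finset.sum_filter_add_sum_filter_not (s := Finset.univ) (p := fun k => k ∈ E)
      (f := fun k => f k * f (k + s))]
    have h1 : ∑ k ∈ Finset.univ.filter (fun k => ¬ k ∈ E), f k * f (k + s) = 0 := by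
      apply Finset.sum_eq_zero
      intro k hk
      rw [Finset.mem_filter] at hk
      simp [hf, hk.2]
    have h2 : Finset.univ.filter (fun k => k ∈ E) = E := by ext; simp
    rw [h1, add_zero, h2]
    apply Finset.sum_congr rfl
    intro k hk
    simp [hf, hk]
  have hfs : ∑ k, f k = (E.card : ℝ) := by
    simp [hf]
  have ha : ∑ k, ∑ s ∈ H, f (k + s) = (H.card : ℝ) * E.card := by
    rw [Finset.sum_comm]
    have h1 : ∀ s ∈ H, ∑ k, f (k + s) = (E.card : ℝ) := by
      intro s _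
      rw [← hfs]
      exact Fintype.sum_equiv (Equiv.addRight s) _ _ (fun j => rfl)
    rw [Finset.sum_congr rfl h1, Finset.sum_const, nsmul_eq_mul]
  have hb : ∑ k, (∑ s ∈ H, f (k + s)) ^ 2 =
      (H.card : ℝ) * ∑ s ∈ H, ((E.filter (fun k => k + s ∈ E)).card : ℝ) := by
    have h1 : ∀ k, (∑ s ∈ H, f (k + s)) ^ 2 = ∑ s ∈ H, ∑ t ∈ H, f (k + s) * f (k + t) := by
      intro k
      rw [pow_two, Finset.sum_mul_sum]
    simp only [h1]
    rw [Finset.sum_comm]
    have h2 : ∀ s ∈ H, ∑ k, ∑ t ∈ H, f (k + s) * f (k + t) =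
        ∑ s ∈ H, ((E.filter (fun k => k + s ∈ E)).card : ℝ) := by
      intro s hs
      rw [Finset.sum_comm]
      have h3 : ∀ t ∈ H, ∑ k, f (k + s) * f (k + t) =
          ((E.filter (fun k => k + (t - s) ∈ E)).card : ℝ) := by
        intro t _
        rw [hEs]
        refine Fintype.sum_equiv (Equiv.addRight s) _ _ (fun j => ?_)
        show f (j + s) * f (j + t) = f (j + s) * f (j + s + (t - s))
        congr 2
        abel
      rw [Finset.sum_congr rfl h3]
      refine Finset.sum_nbij' (fun t => t - s) (fun t => t + s) ?_ ?_ ?_ ?_ ?_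
      · intro t ht; exact hneg s hs t ht
      · intro t ht; exact hadd s hs t ht
      · intro t _; exact sub_add_cancel t s
      · intro t _; exact add_sub_cancel_right t s
      · intro t _; rfl
    rw [Finset.sum_congr rfl h2, Finset.sum_const, nsmul_eq_mul]
  have hc := sq_sum_le_card_mul_sum_sq (s := (Finset.univ : Finset G))
    (f := fun k => ∑ s ∈ H, f (k + s))
  rw [ha, hb, Finset.card_univ] at hc
  have hd : (H.card : ℝ) * ((H.card : ℝ) * (E.card : ℝ) ^ 2) ≤ (H.card : ℝ) *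
      ((Fintype.card G : ℝ) * ∑ s ∈ H, ((E.filter (fun k => k + s ∈ E)).card : ℝ)) := by
    calc _ = ((H.card : ℝ) * E.card) ^ 2 := by ring
      _ ≤ _ := hc
      _ = _ := by ring
  exact le_of_mul_le_mul_left hd hHpos

theorem cube_step {G : Type*} [AddCommGroup G] [Fintype G] (H : Finset G) (h0 : 0 ∈ H)
    (hneg : ∀ s ∈ H, ∀ t ∈ H, t - s ∈ H) (hadd : ∀ s ∈ H, ∀ t ∈ H, t + s ∈ H) (E : Finset G)
    (η : ℝ) (hη : 0 < η) (hE : η * (Fintype.card G : ℝ) ≤ E.card) (hH : 2 / η ≤ H.card) :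
    ∃ s ∈ H, s ≠ 0 ∧
      η ^ 2 / 2 * (Fintype.card G : ℝ) ≤ ((E.filter (fun k => k + s ∈ E)).card : ℝ) := by
  by_contra hcon
  push Not at hcon
  have hGpos : (0 : ℝ) < Fintype.card G := by exact_mod_cast Fintype.card_pos
  have h1 := cs_shift H hneg hadd E
  rw [← Finset.add_sum_erase H _ h0] at h1
  have h2 : ((E.filter (fun k => k + 0 ∈ E)).card : ℝ) = E.card := by
    congr 2
    ext k
    simp
  rw [h2] at h1
  have hHc : ((H.erase 0).card : ℝ) = H.card - 1 := by
    rw [Finset.card_erase_of_mem h0, Nat.cast_sub (Finset.card_pos.2 ⟨0, h0⟩)]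
    simp
  have h3 : ∑ s ∈ H.erase 0, ((E.filter (fun k => k + s ∈ E)).card : ℝ) ≤
      ((H.card : ℝ) - 1) * (η ^ 2 / 2 * (Fintype.card G : ℝ)) := by
    rw [← hHc, ← nsmul_eq_mul, ← Finset.sum_const]
    apply Finset.sum_le_sum
    intro s hs
    rw [Finset.mem_erase] at hs
    exact (hcon s hs.2 hs.1).le
  have hHη : 2 ≤ (H.card : ℝ) * η := by rwa [div_le_iff₀ hη] at hH
  set g : ℝ := (Fintype.card G : ℝ) with hg
  set e : ℝ := (E.card : ℝ) with he
  set h : ℝ := (H.card : ℝ) with hh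
  have h4 : h * e ^ 2 ≤ g * (e + (h - 1) * (η ^ 2 / 2 * g)) :=
    h1.trans (mul_le_mul_of_nonneg_left (by linarith) hGpos.le)
  -- e ≥ η g, h η ≥ 2
  have he0 : 0 < e := lt_of_lt_of_le (by positivity) hE
  have h5 : 2 * g ≤ h * e := by
    calc 2 * g ≤ (h * η) * g := mul_le_mul_of_nonneg_right hHη hGpos.le
      _ = h * (η * g) := by ring
      _ ≤ h * e := mul_le_mul_of_nonneg_left hE (by positivity)
  have h6 : g * e ≤ h * e ^ 2 / 2 := by nlinarith
  have h7 : h * (η * g) ^ 2 ≤ h * e ^ 2 := by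
    apply mul_le_mul_of_nonneg_left _ (by positivity)
    exact pow_le_pow_left₀ (by positivity) hE 2
  have h8 : 0 < η ^ 2 / 2 * g ^ 2 := by positivity
  nlinarith

theorem cube {G : Type*} [AddCommGroup G] [Fintype G] : ∀ (M : ℕ) (H : Fin M → Finset G)
    (_ : ∀ j, 0 ∈ H j) (_ : ∀ j, ∀ s ∈ H j, ∀ t ∈ H j, t - s ∈ H j)
    (_ : ∀ j, ∀ s ∈ H j, ∀ t ∈ H j, t + s ∈ H j) (E : Finset G) (η : ℝ) (_ : 0 < η) (_ : η ≤ 1)
    (_ : η * (Fintype.card G : ℝ) ≤ E.card)
    (_ : ∀ j, 2 * (2 / η) ^ (2 ^ M) ≤ ((H j).card : ℝ)),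
    ∃ (s : Fin M → G) (k : G), (∀ j, s j ∈ H j ∧ s j ≠ 0) ∧
      ∀ τ : Fin M → Bool, k + ∑ j, (if τ j then s j else 0) ∈ E := by
  intro M
  induction M with
  | zero =>
    intro H h0 hneg hadd E η hη hη1 hE hH
    have hGpos : (0 : ℝ) < Fintype.card G := by exact_mod_cast Fintype.card_pos
    have hEpos : (0 : ℝ) < E.card := lt_of_lt_of_le (by positivity) hE
    obtain ⟨k, hk⟩ := Finset.card_pos.1 (by exact_mod_cast hEpos : 0 < E.card)
    exact ⟨fun _ => 0, k, fun j => j.elim0, fun τ => by simpa using hk⟩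
  | succ M ih =>
    intro H h0 hneg hadd E η hη hη1 hE hH
    have hx : 1 ≤ 2 / η := by rw [le_div_iff₀ hη]; linarith
    have hfirst : 2 / η ≤ ((H 0).card : ℝ) := by
      refine le_trans ?_ (hH 0)
      have h1 : (2 / η) ^ 1 ≤ (2 / η) ^ (2 ^ (M + 1)) :=
        pow_le_pow_right₀ hx (Nat.one_le_two_pow)
      rw [pow_one] at h1
      have h2 : 0 ≤ (2 / η) ^ (2 ^ (M + 1)) := by positivity
      linarith
    obtain ⟨s₀, hs₀, hs₀0, hE'⟩ := cube_step (H 0) (h0 0) (hneg 0) (hadd 0) E η hη hE hfirst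
    have hη' : 0 < η ^ 2 / 2 := by positivity
    have hη'1 : η ^ 2 / 2 ≤ 1 := by nlinarith
    obtain ⟨s', k, hs', hk⟩ := ih (fun j => H j.succ) (fun j => h0 _) (fun j => hneg _)
      (fun j => hadd _) (E.filter (fun k => k + s₀ ∈ E)) (η ^ 2 / 2) hη' hη'1 hE' (by
        intro j
        refine le_trans (le_of_eq ?_) (hH j.succ)
        congr 1
        have h1 : 2 / (η ^ 2 / 2) = (2 / η) ^ 2 := by field_simp
        rw [h1, ← pow_mul, pow_succ, mul_comm])
    refine ⟨Fin.cons s₀ s', k, ?_, ?_⟩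
    · intro j
      refine Fin.cases ?_ (fun i => ?_) j
      · rw [Fin.cons_zero]; exact ⟨hs₀, hs₀0⟩
      · rw [Fin.cons_succ]; exact hs' i
    · intro τ
      rw [Fin.sum_univ_succ]
      simp only [Fin.cons_zero, Fin.cons_succ]
      have h1 := hk (fun j => τ j.succ)
      rw [Finset.mem_filter] at h1
      by_cases hτ : τ 0
      · simp only [hτ, if_true]
        have h2 : k + (s₀ + ∑ j : Fin M, if τ j.succ then s' j else 0) =
            k + (∑ j : Fin M, if τ j.succ then s' j else 0) + s₀ := by abel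
        rw [h2]
        exact h1.2
      · simp only [hτ]
        simp only [Bool.false_eq_true, if_false, zero_add]
        exact h1.1

/-- disjoint blocks with large products -/
theorem exists_block {ι : Type*} (I : Finset ι) (N : ι → ℝ) (S Y : ℝ) (hY : 1 ≤ Y) (hS : 1 ≤ S)
    (hN : ∀ i ∈ I, 1 ≤ N i ∧ N i ≤ S) (hI : Y ≤ ∏ i ∈ I, N i) :
    ∃ W ⊆ I, Y ≤ ∏ i ∈ W, N i ∧ ∏ i ∈ W, N i ≤ Y * S := by
  induction I using Finset.induction_on with
  | empty =>
    refine ⟨∅, Finset.Subset.refl _, hI, ?_⟩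
    rw [Finset.prod_empty]
    nlinarith
  | insert a I ha ih =>
    by_cases h : Y ≤ ∏ i ∈ I, N i
    · obtain ⟨W, hW, h1, h2⟩ := ih (fun i hi => hN i (Finset.mem_insert_of_mem hi)) h
      exact ⟨W, hW.trans (Finset.subset_insert _ _), h1, h2⟩
    · push Not at h
      refine ⟨insert a I, Finset.Subset.refl _, hI, ?_⟩
      rw [Finset.prod_insert ha]
      have h1 := hN a (Finset.mem_insert_self _ _)
      have h2 : 0 ≤ ∏ i ∈ I, N i := Finset.prod_nonneg fun i hi => by
        linarith [(hN i (Finset.mem_insert_of_mem hi)).1]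
      calc N a * ∏ i ∈ I, N i ≤ S * Y := mul_le_mul h1.2 h.le h2 (by linarith)
        _ = Y * S := mul_comm _ _

theorem exists_blocks {ι : Type*} (N : ι → ℝ) (S Y : ℝ) (hY : 1 ≤ Y) (hS : 1 ≤ S) : ∀ (M : ℕ)
    (I : Finset ι) (_ : ∀ i ∈ I, 1 ≤ N i ∧ N i ≤ S) (_ : (Y * S) ^ M ≤ ∏ i ∈ I, N i),
    ∃ W : Fin M → Finset ι, (∀ j, W j ⊆ I) ∧ (∀ j, Y ≤ ∏ i ∈ W j, N i) ∧
      ∀ j l, j ≠ l → Disjoint (W j) (W l) := by
  intro M
  induction M with
  | zero => intro I hN hI; exact ⟨fun j => j.elim0, fun j => j.elim0, fun j => j.elim0,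
      fun j => j.elim0⟩
  | succ M ih =>
    intro I hN hI
    have hYS : 1 ≤ Y * S := by nlinarith
    have hY1 : Y ≤ ∏ i ∈ I, N i := by
      refine le_trans ?_ hI
      calc Y ≤ Y * S := by nlinarith
        _ = (Y * S) ^ 1 := (pow_one _).symm
        _ ≤ _ := pow_le_pow_right₀ hYS (by omega)
    obtain ⟨W₀, hW₀, h1, h2⟩ := exists_block I N S Y hY hS hN hY1
    have h3 : (Y * S) ^ M ≤ ∏ i ∈ I \ W₀, N i := by
      have h4 : (∏ i ∈ I \ W₀, N i) * ∏ i ∈ W₀, N i = ∏ i ∈ I, N i :=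
        Finset.prod_sdiff hW₀
      have h5 : 0 ≤ ∏ i ∈ I \ W₀, N i := Finset.prod_nonneg fun i hi => by
        linarith [(hN i (Finset.mem_sdiff.1 hi).1).1]
      have h6 : (Y * S) ^ M * (Y * S) ≤ (∏ i ∈ I \ W₀, N i) * (Y * S) := by
        rw [← pow_succ]
        calc (Y * S) ^ (M + 1) ≤ ∏ i ∈ I, N i := hI
          _ = _ := h4.symm
          _ ≤ _ := mul_le_mul_of_nonneg_left h2 h5
      exact le_of_mul_le_mul_right h6 (by linarith)
    obtain ⟨W', hW', h4, h5⟩ := ih (I \ W₀) (fun i hi => hN i (Finset.mem_sdiff.1 hi).1) h3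
    have hdis : ∀ j, Disjoint W₀ (W' j) := by
      intro j
      rw [Finset.disjoint_left]
      intro i hi hi'
      exact (Finset.mem_sdiff.1 (hW' j hi')).2 hi
    refine ⟨Fin.cons W₀ W', ?_, ?_, ?_⟩
    · intro j
      refine Fin.cases ?_ (fun i => ?_) j
      · rw [Fin.cons_zero]; exact hW₀
      · rw [Fin.cons_succ]; exact (hW' i).trans Finset.sdiff_subset
    · intro j
      refine Fin.cases ?_ (fun i => ?_) j
      · rw [Fin.cons_zero]; exact h1
      · rw [Fin.cons_succ]; exact h4 i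
    · intro j l
      refine Fin.cases ?_ (fun i => ?_) j
      · refine Fin.cases ?_ (fun i' => ?_) l
        · intro h; exact absurd rfl h
        · intro _; rw [Fin.cons_zero, Fin.cons_succ]; exact hdis i'
      · refine Fin.cases ?_ (fun i' => ?_) l
        · intro _; rw [Fin.cons_zero, Fin.cons_succ]; exact (hdis i).symm
        · intro h; rw [Fin.cons_succ, Fin.cons_succ]
          exact h5 i i' (fun h' => h (by rw [h']))

end Pool.Agent.R934.LB
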