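import Pool.Agent.R934.LB.HLO
set_option autoImplicit false
set_option linter.unusedVariables false

/-! A ball of the lattice has small density on every large progression. -/

open scoped Classical Pointwise
open Finset

namespace Pool.Agent.R934.LB

theorem prog_card_le {n d : ℕ} (a : Fin n → ℤ) (v : Fin d → Fin n → ℤ) (N : Fin d → ℕ)
    (hN1 : ∀ i, 1 ≤ N i) : (Prog a v N).ncard ≤
      ∏ i ∈ Finset.univ.filter (fun i => v i ≠ 0 ∧ 2 ≤ N i), N i := by
  set I : Finset (Fin d) := Finset.univ.filter (fun i => v i ≠ 0 ∧ 2 ≤ N i) with hI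
  have h7 : Prog a v N ⊆ ((Fintype.piFinset fun i : Fin d =>
      if i ∈ I then Finset.range (N i) else {0}).image
      (fun k : Fin d → ℕ => a + ∑ i, k i • v i) : Set (Fin n → ℤ)) := by
    rintro y ⟨k, hk, rfl⟩
    rw [Finset.coe_image]
    refine ⟨fun i => if i ∈ I then k i else 0, ?_, ?_⟩
    · rw [Finset.mem_coe, Fintype.mem_piFinset]
      intro i
      by_cases hi : i ∈ I
      · simp only [hi, if_true]; exact Finset.mem_range.2 (hk i)
      · simp only [hi, if_false]; exact Finset.mem_singleton_self _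
    · simp only
      congr 1
      apply Finset.sum_congr rfl
      intro i _
      by_cases hi : i ∈ I
      · simp only [hi, if_true]
      · simp only [hi, if_false]
        rw [hI, Finset.mem_filter] at hi
        push Not at hi
        by_cases hv : v i = 0
        · rw [hv]; simp
        · have := hi (Finset.mem_univ _) hv
          have h8 : k i = 0 := by have := hk i; omega
          rw [h8]
  calc (Prog a v N).ncard ≤ _ := Set.ncard_le_ncard h7 (Finset.finite_toSet _)
    _ = _ := Set.ncard_coe_finset _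
    _ ≤ _ := Finset.card_image_le
    _ = ∏ i, (if i ∈ I then N i else 1) := by
        rw [Fintype.card_piFinset]
        apply Finset.prod_congr rfl
        intro i _
        split_ifs <;> simp
    _ = ∏ i ∈ I, N i := by
        rw [Finset.prod_ite, Finset.prod_const_one, mul_one]
        congr 1
        ext i; simp

theorem card_window (S : Finset ℕ) (D : ℕ) (h : ∀ x ∈ S, ∀ y ∈ S, y ≤ x + D) : S.card ≤ D + 1 := by
  rcases S.eq_empty_or_nonempty with rfl | hS
  · simp
  · have : S ⊆ Finset.Icc (S.min' hS) (S.min' hS + D) := by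
      intro y hy
      rw [Finset.mem_Icc]
      exact ⟨S.min'_le y hy, h _ (S.min'_mem hS) y hy⟩
    have h2 := Finset.card_le_card this
    rw [Nat.card_Icc] at h2
    omega

/-- few effective generators -/
theorem few_gens {n d : ℕ} (r R η : ℝ) (hr : 0 < r) (hR : 0 < R) (hη : 0 < η)
    (a x : Fin n → ℤ) (v : Fin d → Fin n → ℤ) (N : Fin d → ℕ) [hN : ∀ i, NeZero (N i)]
    (I : Finset (Fin d)) (hI : ∀ i ∈ I, 2 ≤ N i ∧ r ≤ ‖toE (v i)‖)
    (E : Finset ((i : Fin d) → Fin (N i)))
    (hE : ∀ k ∈ E, ‖toE (a + ∑ i, (k i : ℕ) • v i - x)‖ ≤ R)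
    (hd : η * ((∏ i, N i : ℕ) : ℝ) ≤ (E.card : ℝ)) :
    (I.card : ℝ) ≤ 8 * (16 * R / (r / 2) + 1) ^ 2 / η ^ 4 := by
  set e : (Fin d → Bool) → ((i : Fin d) → Fin (N i)) := fun τ i => if τ i then 1 else 0 with he
  -- double counting
  have hsum : ∑ j : (i : Fin d) → Fin (N i),
      ((Finset.univ.filter (fun τ => j + e τ ∈ E)).card : ℝ) = 2 ^ d * (E.card : ℝ) := by
    have h1 : ∀ j : (i : Fin d) → Fin (N i),
        ((Finset.univ.filter (fun τ => j + e τ ∈ E)).card : ℝ) =
        ∑ τ : Fin d → Bool, if j + e τ ∈ E then (1 : ℝ) else 0 := by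
      intro j
      rw [Finset.card_filter]
      push_cast
      rfl
    simp only [h1]
    rw [Finset.sum_comm]
    have h2 : ∀ τ : Fin d → Bool, (∑ j : (i : Fin d) → Fin (N i),
        if j + e τ ∈ E then (1 : ℝ) else 0) = (E.card : ℝ) := by
      intro τ
      have h3 : (∑ j : (i : Fin d) → Fin (N i), if j + e τ ∈ E then (1 : ℝ) else 0) =
          ∑ j : (i : Fin d) → Fin (N i), if j ∈ E then (1 : ℝ) else 0 :=
        Fintype.sum_equiv (Equiv.addRight (e τ)) _ _ (fun j => rfl)
      rw [h3, Finset.sum_ite_mem, Finset.univ_inter, Finset.sum_const, nsmul_eq_mul, mul_one]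
    simp only [h2]
    rw [Finset.sum_const, Finset.card_univ, Fintype.card_fun, Fintype.card_bool, Fintype.card_fin,
      nsmul_eq_mul]
    push_cast
    ring
  obtain ⟨j, hj⟩ : ∃ j : (i : Fin d) → Fin (N i),
      η * 2 ^ d ≤ ((Finset.univ.filter (fun τ => j + e τ ∈ E)).card : ℝ) := by
    by_contra hcon
    push Not at hcon
    have hne : (Finset.univ : Finset ((i : Fin d) → Fin (N i))).Nonempty := ⟨0, Finset.mem_univ _⟩
    have h1 := Finset.sum_lt_sum_of_nonempty hne (fun j _ => hcon j)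
    rw [hsum, Finset.sum_const, Finset.card_univ, Fintype.card_pi, nsmul_eq_mul] at h1
    simp only [Fintype.card_fin] at h1
    have h2 : (0 : ℝ) < 2 ^ d := by positivity
    nlinarith
  -- signed sums
  set α : Fin d → ℝ := fun i => ((j i : ℕ) : ℝ) with hα
  set β : Fin d → ℝ := fun i => (((j i + 1 : Fin (N i)) : ℕ) : ℝ) with hβ
  set w : Fin d → EuclideanSpace ℝ (Fin n) := fun i => ((β i - α i) / 2) • toE (v i) with hw
  set c : EuclideanSpace ℝ (Fin n) := toE x - toE a - ∑ i, ((α i + β i) / 2) • toE (v i) with hc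
  have hkey : ∀ τ : Fin d → Bool, toE (a + ∑ i, ((j + e τ) i : ℕ) • v i - x) =
      ∑ i, (if τ i then w i else - w i) - c := by
    intro τ
    rw [map_sub, map_add, map_sum, hc]
    have h1 : ∑ i, toE (((j + e τ) i : ℕ) • v i) =
        ∑ i, (if τ i then w i else - w i) + ∑ i, ((α i + β i) / 2) • toE (v i) := by
      rw [← Finset.sum_add_distrib]
      apply Finset.sum_congr rfl
      intro i _
      rw [map_nsmul, ← Nat.cast_smul_eq_nsmul ℝ]
      by_cases hτ : τ i
      · have h2 : ((j + e τ) i : ℕ) = ((j i + 1 : Fin (N i)) : ℕ) := by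
          simp [he, hτ]
        rw [h2]
        simp only [hτ, if_true]
        rw [hw]
        simp only
        rw [← add_smul]
        congr 1
        simp only [hα, hβ]
        ring
      · have h2 : ((j + e τ) i : ℕ) = (j i : ℕ) := by
          simp [he, hτ]
        rw [h2]
        simp only [hτ]
        rw [hw]
        simp only [Bool.false_eq_true, if_false]
        rw [← neg_smul, ← add_smul]
        congr 1
        simp only [hα, hβ]
        ring
    rw [h1]
    abel
  refine hlo w I (r / 2) R η (by positivity) hR hη ?_ c ?_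
  · intro i hi
    obtain ⟨h2, h3⟩ := hI i hi
    rw [hw]
    simp only
    rw [norm_smul]
    have h4 : 1 / 2 ≤ ‖(β i - α i) / 2‖ := by
      rw [norm_div, Real.norm_eq_abs, Real.norm_eq_abs, abs_two]
      apply div_le_div_of_nonneg_right _ (by norm_num)
      have h5 : ((j i + 1 : Fin (N i)) : ℕ) ≠ (j i : ℕ) := by
        intro h
        have h6 : j i + 1 = j i := Fin.ext h
        have h7 : (1 : Fin (N i)) = 0 := by simpa using h6
        have h8 := congrArg Fin.val h7
        rw [Fin.val_one', Fin.val_zero] at h8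
        rw [Nat.mod_eq_of_lt (by omega)] at h8
        omega
      have h6 : (1 : ℤ) ≤ |(((j i + 1 : Fin (N i)) : ℕ) : ℤ) - ((j i : ℕ) : ℤ)| := by
        apply Int.one_le_abs
        intro h
        apply h5
        omega
      have h7 : (1 : ℝ) ≤ ((|(((j i + 1 : Fin (N i)) : ℕ) : ℤ) - ((j i : ℕ) : ℤ)| : ℤ) : ℝ) := by
        exact_mod_cast h6
      rw [Int.cast_abs] at h7
      push_cast at h7
      exact h7
    calc r / 2 = 1 / 2 * r := by ring
      _ ≤ ‖(β i - α i) / 2‖ * ‖toE (v i)‖ := mul_le_mul h4 h3 hr.le (norm_nonneg _)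
  · rw [Fintype.card_fin]
    refine hj.trans ?_
    have : (Finset.univ.filter (fun τ => j + e τ ∈ E)) ⊆ (Finset.univ.filter
        (fun τ : Fin d → Bool => ‖∑ v, (if τ v then w v else - w v) - c‖ ≤ R)) := by
      intro τ hτ
      rw [Finset.mem_filter] at hτ ⊢
      refine ⟨Finset.mem_univ _, ?_⟩
      rw [← hkey τ]
      exact hE _ hτ.2
    exact_mod_cast Finset.card_le_card this

/-- short sides -/
theorem short_side {n d : ℕ} (D : ℕ) (a : Fin n → ℤ) (v : Fin d → Fin n → ℤ) (N : Fin d → ℕ)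
    [hN : ∀ i, NeZero (N i)] (i : Fin d) (E : Finset ((i : Fin d) → Fin (N i)))
    (hE : ∀ k ∈ E, ∀ l ∈ E, (∀ j, j ≠ i → k j = l j) → (k i : ℕ) ≤ (l i : ℕ) + D) :
    N i * E.card ≤ (∏ i, N i) * (D + 1) := by
  have hsum : ∑ k : (i : Fin d) → Fin (N i),
      (Finset.univ.filter (fun t : Fin (N i) => k + Pi.single i t ∈ E)).card = N i * E.card := by
    have h1 : ∀ k : (i : Fin d) → Fin (N i),
        (Finset.univ.filter (fun t : Fin (N i) => k + Pi.single i t ∈ E)).card =
        ∑ t : Fin (N i), if k + Pi.single i t ∈ E then 1 else 0 := by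
      intro k
      rw [Finset.card_filter]
    simp only [h1]
    rw [Finset.sum_comm]
    have h2 : ∀ t : Fin (N i), (∑ k : (i : Fin d) → Fin (N i),
        if k + Pi.single i t ∈ E then 1 else 0) = E.card := by
      intro t
      have h3 : (∑ k : (i : Fin d) → Fin (N i), if k + Pi.single i t ∈ E then 1 else 0) =
          ∑ k : (i : Fin d) → Fin (N i), if k ∈ E then 1 else 0 :=
        Fintype.sum_equiv (Equiv.addRight (Pi.single i t : (i : Fin d) → Fin (N i))) _ _
          (fun j => rfl)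
      rw [h3, Finset.sum_ite_mem, Finset.univ_inter, Finset.sum_const, smul_eq_mul, mul_one]
    simp only [h2]
    rw [Finset.sum_const, Finset.card_univ, Fintype.card_fin, smul_eq_mul]
  rw [← hsum]
  calc ∑ k : (i : Fin d) → Fin (N i),
      (Finset.univ.filter (fun t : Fin (N i) => k + Pi.single i t ∈ E)).card
      ≤ ∑ k : (i : Fin d) → Fin (N i), (D + 1) := by
        apply Finset.sum_le_sum
        intro k _
        have hinj : Function.Injective (fun t : Fin (N i) => ((k i + t : Fin (N i)) : ℕ)) := by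
          intro t t' h
          have h1 : k i + t = k i + t' := Fin.ext h
          exact add_left_cancel h1
        rw [← Finset.card_image_of_injective _ hinj]
        apply card_window
        intro x hx y hy
        obtain ⟨t, ht, rfl⟩ := Finset.mem_image.1 hx
        obtain ⟨t', ht', rfl⟩ := Finset.mem_image.1 hy
        rw [Finset.mem_filter] at ht ht'
        have h1 := hE _ ht'.2 _ ht.2 (by
          intro j hj
          rw [Pi.add_apply, Pi.add_apply, Pi.single_eq_of_ne hj, Pi.single_eq_of_ne hj])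
        rw [Pi.add_apply, Pi.add_apply, Pi.single_eq_same, Pi.single_eq_same] at h1
        exact h1
    _ = (∏ i, N i) * (D + 1) := by
        rw [Finset.sum_const, Finset.card_univ, Fintype.card_pi, smul_eq_mul]
        simp only [Fintype.card_fin]

/-- A progression (with generators in the lattice) on which a translate of `m A - m A` has density
`η` is small. -/
theorem density {n p q ρ : ℕ} (hn : 1 ≤ n) (hq : 1 ≤ q) (hρ : 1 ≤ ρ) (u : Fin n → ZMod p)
    (hu : ∀ z ∈ Lat u, z ≠ 0 → (q : ℤ) ^ 2 * n < sq z) (m d : ℕ) (hm : 1 ≤ m) (x a : Fin n → ℤ)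
    (v : Fin d → Fin n → ℤ) (hv : ∀ i, v i ∈ Lat u) (N : Fin d → ℕ) (η : ℝ) (hη : 0 < η)
    (hP : η * ((∏ i, N i : ℕ) : ℝ) ≤
      ((Prog a v N ∩ Transl (Bl u (ρ * q) 1 : Set (Fin n → ℤ)) m x).ncard : ℝ)) :
    ((Prog a v N).ncard : ℝ) ≤ Real.exp (2048 * (5 * (ρ : ℝ)) ^ 5 * ((m : ℝ) / η) ^ 5) := by
  have hpos : (0 : ℝ) ≤ 2048 * (5 * (ρ : ℝ)) ^ 5 * ((m : ℝ) / η) ^ 5 := by positivity
  by_cases hN : ∃ i, N i = 0
  · obtain ⟨i, hi⟩ := hN
    have : Prog a v N = ∅ := by
      ext y
      simp only [Prog, Set.mem_ofPred_eq, Set.mem_empty_iff_false, iff_false]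
      rintro ⟨k, hk, -⟩
      have := hk i
      omega
    rw [this, Set.ncard_empty]
    exact_mod_cast (Real.exp_pos _).le
  push Not at hN
  have hN1 : ∀ i, 1 ≤ N i := fun i => Nat.one_le_iff_ne_zero.2 (hN i)
  have hNZ : ∀ i, NeZero (N i) := fun i => ⟨hN i⟩
  set I : Finset (Fin d) := Finset.univ.filter (fun i => v i ≠ 0 ∧ 2 ≤ N i) with hI
  set E : Finset ((i : Fin d) → Fin (N i)) := Finset.univ.filter (fun k =>
    a + ∑ i, (k i : ℕ) • v i ∈ Transl (Bl u (ρ * q) 1 : Set (Fin n → ℤ)) m x) with hE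
  have hEcard : (Prog a v N ∩ Transl (Bl u (ρ * q) 1 : Set (Fin n → ℤ)) m x).ncard ≤ E.card := by
    have h1 : Prog a v N ∩ Transl (Bl u (ρ * q) 1 : Set (Fin n → ℤ)) m x ⊆
        (E.image (fun k => a + ∑ i, (k i : ℕ) • v i) : Set (Fin n → ℤ)) := by
      rintro y ⟨⟨k, hk, rfl⟩, hy⟩
      rw [Finset.coe_image]
      refine ⟨fun i => ⟨k i, hk i⟩, ?_, rfl⟩
      rw [Finset.mem_coe, hE, Finset.mem_filter]
      exact ⟨Finset.mem_univ _, hy⟩
    calc _ ≤ _ := Set.ncard_le_ncard h1 (Finset.finite_toSet _)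
      _ = _ := Set.ncard_coe_finset _
      _ ≤ _ := Finset.card_image_le
  have hE2 : η * ((∏ i, N i : ℕ) : ℝ) ≤ (E.card : ℝ) := hP.trans (by exact_mod_cast hEcard)
  have hball : ∀ k ∈ E, sq (a + ∑ i, (k i : ℕ) • v i - x) ≤
      (m : ℤ) ^ 2 * (4 * (((ρ * q : ℕ) : ℤ) ^ 2 * n)) := by
    intro k hk
    rw [hE, Finset.mem_filter] at hk
    exact (transl_bound hn u _ _ _ _ hk.2).2
  have hqr : (0 : ℝ) < q := by exact_mod_cast hq
  have hnr : (0 : ℝ) < n := by exact_mod_cast hn
  have hρr : (1 : ℝ) ≤ ρ := by exact_mod_cast hρ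
  have hmr : (1 : ℝ) ≤ m := by exact_mod_cast hm
  set r : ℝ := q * √n with hr
  have hrpos : 0 < r := by positivity
  have hr2 : r ^ 2 = (q : ℝ) ^ 2 * n := by rw [hr, mul_pow, Real.sq_sqrt hnr.le]
  -- number of effective generators
  have hgens : (I.card : ℝ) ≤ 8 * (16 * (2 * m * ρ * r) / (r / 2) + 1) ^ 2 / η ^ 4 := by
    apply few_gens r (2 * m * ρ * r) η hrpos (by positivity) hη a x v N I _ E _ hE2
    · intro i hi
      rw [hI, Finset.mem_filter] at hi
      refine ⟨hi.2.2, ?_⟩
      have h1 := hu _ (hv i) hi.2.1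
      apply le_of_sq_le_sq _ (norm_nonneg _)
      rw [norm_toE, hr2]
      exact_mod_cast h1.le
    · intro k hk
      apply le_of_sq_le_sq _ (by positivity)
      rw [norm_toE, mul_pow, hr2]
      have h1 : ((sq (a + ∑ i, (k i : ℕ) • v i - x) : ℤ) : ℝ) ≤
          (((m : ℤ) ^ 2 * (4 * (((ρ * q : ℕ) : ℤ) ^ 2 * n)) : ℤ) : ℝ) := by
        exact_mod_cast hball k hk
      push_cast at h1
      refine h1.trans (le_of_eq ?_)
      ring
  -- the sides
  have hηle : η ≤ 1 := by
    have h1 : E.card ≤ ∏ i, N i := by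
      refine (Finset.card_le_univ _).trans (le_of_eq ?_)
      rw [Fintype.card_pi]
      simp only [Fintype.card_fin]
    have h2 : (E.card : ℝ) ≤ ((∏ i, N i : ℕ) : ℝ) := by exact_mod_cast h1
    have h3 : (0 : ℝ) < ((∏ i, N i : ℕ) : ℝ) := by
      exact_mod_cast Finset.prod_pos fun i _ => Nat.pos_of_ne_zero (hN i)
    by_contra hcon
    push Not at hcon
    nlinarith
  set X : ℝ := (4 * m * ρ + 1) / η with hX
  have hX1 : 1 ≤ X := by
    rw [hX, le_div_iff₀ hη]
    nlinarith
  have hηX : 1 / η ≤ X := by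
    rw [hX]
    apply div_le_div_of_nonneg_right _ hη.le
    have : 0 ≤ 4 * (m : ℝ) * ρ := by positivity
    linarith
  have hside : ∀ i ∈ I, (N i : ℝ) ≤ X := by
    intro i hi
    rw [hI, Finset.mem_filter] at hi
    have h1 := short_side (4 * m * ρ) a v N i E (by
      intro k hk l hl hkl
      have h2 := hball k hk
      have h3 := hball l hl
      have h4 := sq_sub_le (a + ∑ i, (k i : ℕ) • v i - x) (a + ∑ i, (l i : ℕ) • v i - x)
      have h5 : a + ∑ i, (k i : ℕ) • v i - x - (a + ∑ i, (l i : ℕ) • v i - x) =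
          (((k i : ℕ) : ℤ) - ((l i : ℕ) : ℤ)) • v i := by
        have h6 : a + ∑ i, (k i : ℕ) • v i - x - (a + ∑ i, (l i : ℕ) • v i - x) =
            ∑ j, (((k j : ℕ) : ℤ) - ((l j : ℕ) : ℤ)) • v j := by
          simp only [sub_smul, Finset.sum_sub_distrib, natCast_zsmul]
          abel
        rw [h6]
        apply Finset.sum_eq_single i
        · intro j _ hj
          rw [hkl j hj, sub_self, zero_smul]
        · intro h
          exact absurd (Finset.mem_univ _) h
      rw [h5, sq_smul] at h4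
      have h7 := hu _ (hv i) hi.2.1
      by_contra hcon
      push Not at hcon
      have h8 : ((4 * m * ρ : ℕ) : ℤ) < ((k i : ℕ) : ℤ) - ((l i : ℕ) : ℤ) := by
        have : (l i : ℕ) + 4 * m * ρ < (k i : ℕ) := hcon
        push_cast
        zify at this
        linarith
      set t : ℤ := ((k i : ℕ) : ℤ) - ((l i : ℕ) : ℤ) with ht
      have h9 : ((4 * m * ρ : ℕ) : ℤ) ^ 2 < t ^ 2 := pow_lt_pow_left₀ h8 (by positivity) (by norm_num)
      have hqn : (0 : ℤ) < (q : ℤ) ^ 2 * n := by
        have h10 : (0 : ℤ) < n := by exact_mod_cast hn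
        have h11 : (0 : ℤ) < q := by exact_mod_cast hq
        positivity
      have h10 : t ^ 2 * ((q : ℤ) ^ 2 * n) ≤ t ^ 2 * sq (v i) :=
        mul_le_mul_of_nonneg_left h7.le (sq_nonneg _)
      have h11 : ((4 * m * ρ : ℕ) : ℤ) ^ 2 * ((q : ℤ) ^ 2 * n) < t ^ 2 * ((q : ℤ) ^ 2 * n) :=
        mul_lt_mul_of_pos_right h9 hqn
      have h12 : 2 * ((m : ℤ) ^ 2 * (4 * (((ρ * q : ℕ) : ℤ) ^ 2 * n))) +
          2 * ((m : ℤ) ^ 2 * (4 * (((ρ * q : ℕ) : ℤ) ^ 2 * n))) =
          ((4 * m * ρ : ℕ) : ℤ) ^ 2 * ((q : ℤ) ^ 2 * n) := by push_cast; ring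
      linarith)
    have h2 : (N i : ℝ) * E.card ≤ ((∏ i, N i : ℕ) : ℝ) * (4 * m * ρ + 1) := by exact_mod_cast h1
    have h3 : (0 : ℝ) < ((∏ i, N i : ℕ) : ℝ) := by
      exact_mod_cast Finset.prod_pos fun i _ => Nat.pos_of_ne_zero (hN i)
    rw [hX, le_div_iff₀ hη]
    have h4 : (N i : ℝ) * (η * ((∏ i, N i : ℕ) : ℝ)) ≤ ((∏ i, N i : ℕ) : ℝ) * (4 * m * ρ + 1) :=
      (mul_le_mul_of_nonneg_left hE2 (Nat.cast_nonneg _)).trans h2
    have h5 : ((∏ i, N i : ℕ) : ℝ) * ((N i : ℝ) * η) ≤
        ((∏ i, N i : ℕ) : ℝ) * (4 * m * ρ + 1) := by linarith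
    exact le_of_mul_le_mul_left h5 h3
  -- conclusion
  have hIX : (I.card : ℝ) ≤ 2048 * X ^ 4 := by
    refine hgens.trans ?_
    have h1 : 16 * (2 * m * ρ * r) / (r / 2) = 64 * (m * ρ) := by field_simp; ring
    rw [h1]
    have h2 : 64 * ((m : ℝ) * ρ) + 1 ≤ 16 * (X * η) := by
      rw [hX, div_mul_cancel₀ _ hη.ne']
      have : 0 ≤ (m : ℝ) * ρ := by positivity
      linarith
    have h3 : (64 * ((m : ℝ) * ρ) + 1) ^ 2 ≤ (16 * (X * η)) ^ 2 :=
      pow_le_pow_left₀ (by positivity) h2 2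
    calc 8 * (64 * ((m : ℝ) * ρ) + 1) ^ 2 / η ^ 4 ≤ 8 * (16 * (X * η)) ^ 2 / η ^ 4 := by
          apply div_le_div_of_nonneg_right _ (by positivity)
          linarith
      _ = 2048 * (X ^ 2 * (1 / η) ^ 2) := by field_simp; ring
      _ ≤ 2048 * (X ^ 2 * X ^ 2) := by
          apply mul_le_mul_of_nonneg_left _ (by norm_num)
          apply mul_le_mul_of_nonneg_left _ (by positivity)
          exact pow_le_pow_left₀ (by positivity) hηX 2
      _ = 2048 * X ^ 4 := by ring
  have hXle : X ≤ 5 * ρ * (m / η) := by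
    rw [hX]
    have h1 : 5 * (ρ : ℝ) * (m / η) = (5 * ρ * m) / η := by ring
    rw [h1]
    apply div_le_div_of_nonneg_right _ hη.le
    nlinarith
  calc ((Prog a v N).ncard : ℝ) ≤ ((∏ i ∈ I, N i : ℕ) : ℝ) := by
        exact_mod_cast prog_card_le a v N hN1
    _ = ∏ i ∈ I, (N i : ℝ) := by push_cast; rfl
    _ ≤ ∏ i ∈ I, Real.exp X := by
        apply Finset.prod_le_prod
        · intro i _; positivity
        · intro i hi
          have := Real.add_one_le_exp X
          linarith [hside i hi]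
    _ = Real.exp (I.card * X) := by
        rw [Finset.prod_const, ← Real.exp_nat_mul]
    _ ≤ Real.exp (2048 * (5 * (ρ : ℝ)) ^ 5 * ((m : ℝ) / η) ^ 5) := by
        apply Real.exp_le_exp.2
        calc (I.card : ℝ) * X ≤ 2048 * X ^ 4 * X :=
              mul_le_mul_of_nonneg_right hIX (by linarith)
          _ = 2048 * X ^ 5 := by ring
          _ ≤ 2048 * (5 * ρ * (m / η)) ^ 5 := by
              apply mul_le_mul_of_nonneg_left _ (by norm_num)
              exact pow_le_pow_left₀ (by linarith) hXle 5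
          _ = _ := by ring

end Pool.Agent.R934.LB
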