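import Pool.Agent.R934.LB.Pack
import Pool.Agent.R563.RRam.LOff
set_option autoImplicit false
set_option linter.unusedVariables false

/-! A Littlewood-Offord inequality in Euclidean spaces, independent of the dimension, by a random
projection to the line. -/

open scoped Classical NNReal ENNReal
open MeasureTheory ProbabilityTheory Set

namespace Pool.Agent.R934.LB

variable {n : ℕ}

/-- the projection in direction `g` -/
noncomputable def pr (w : (EuclideanSpace ℝ (Fin n))) : StrongDual ℝ (EuclideanSpace ℝ (Fin n)) := innerSL ℝ w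

theorem pr_apply (w g : (EuclideanSpace ℝ (Fin n))) : pr w g = inner ℝ w g := rfl

theorem map_pr (w : (EuclideanSpace ℝ (Fin n))) : (stdGaussian (EuclideanSpace ℝ (Fin n))).map (pr w) = gaussianReal 0 (‖w‖₊ ^ 2) := by
  rw [IsGaussian.map_eq_gaussianReal (μ := stdGaussian (EuclideanSpace ℝ (Fin n))) (pr w), integral_strongDual_stdGaussian,
    variance_dual_stdGaussian]
  congr 1
  rw [pr, innerSL_apply_norm]
  ext
  rw [Real.coe_toNNReal _ (by positivity)]
  push_cast
  rfl

/-- small values are rare -/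
theorem small_ball (w : (EuclideanSpace ℝ (Fin n))) (h r : ℝ) (hh : 0 < h) (hr : 0 < r) (hw : r ≤ ‖w‖) :
    (stdGaussian (EuclideanSpace ℝ (Fin n))).real {g | |pr w g| < h} ≤ h / r := by
  have hpos : 0 < ‖w‖ := hr.trans_le hw
  have hv : (‖w‖₊ ^ 2 : ℝ≥0) ≠ 0 := by
    apply pow_ne_zero
    rw [Ne, nnnorm_eq_zero]
    exact norm_pos_iff.1 hpos
  have h1 : (stdGaussian (EuclideanSpace ℝ (Fin n))) {g | |pr w g| < h} = gaussianReal 0 (‖w‖₊ ^ 2) (Ioo (-h) h) := by
    rw [← map_pr, Measure.map_apply (pr w).continuous.measurable measurableSet_Ioo]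
    congr 1
    ext g
    simp only [mem_ofPred_eq, mem_preimage, mem_Ioo, abs_lt]
  have h2 : gaussianReal 0 (‖w‖₊ ^ 2) (Ioo (-h) h) ≤ ENNReal.ofReal (h / r) := by
    rw [gaussianReal_apply 0 hv]
    calc ∫⁻ x in Ioo (-h) h, gaussianPDF 0 (‖w‖₊ ^ 2) x
        ≤ ∫⁻ x in Ioo (-h) h, ENNReal.ofReal (1 / (2 * r)) := by
          apply lintegral_mono
          intro x
          rw [gaussianPDF_def]
          apply ENNReal.ofReal_le_ofReal
          rw [gaussianPDFReal_def]
          have h3 : Real.exp (-(x - 0) ^ 2 / (2 * ((‖w‖₊ ^ 2 : ℝ≥0) : ℝ))) ≤ 1 := by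
            apply Real.exp_le_one_iff.2
            apply div_nonpos_of_nonpos_of_nonneg
            · linarith [sq_nonneg (x - 0)]
            · positivity
          have h4 : (√(2 * Real.pi * ((‖w‖₊ ^ 2 : ℝ≥0) : ℝ)))⁻¹ ≤ 1 / (2 * r) := by
            rw [one_div]
            apply inv_anti₀ (by positivity)
            apply Real.le_sqrt_of_sq_le
            push_cast
            have h5 := Real.pi_gt_three
            have h6 : r ^ 2 ≤ ‖w‖ ^ 2 := pow_le_pow_left₀ hr.le hw 2
            nlinarith [sq_nonneg ‖w‖]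
          calc (√(2 * Real.pi * ((‖w‖₊ ^ 2 : ℝ≥0) : ℝ)))⁻¹ *
                Real.exp (-(x - 0) ^ 2 / (2 * ((‖w‖₊ ^ 2 : ℝ≥0) : ℝ)))
              ≤ (√(2 * Real.pi * ((‖w‖₊ ^ 2 : ℝ≥0) : ℝ)))⁻¹ * 1 :=
                mul_le_mul_of_nonneg_left h3 (by positivity)
            _ ≤ 1 / (2 * r) := by rw [mul_one]; exact h4
      _ = ENNReal.ofReal (1 / (2 * r)) * volume (Ioo (-h) h) := by
          rw [setLIntegral_const]
      _ = ENNReal.ofReal (h / r) := by
          rw [Real.volume_Ioo, ← ENNReal.ofReal_mul (by positivity)]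
          congr 1
          field_simp
          ring
  rw [measureReal_def, h1]
  exact ENNReal.toReal_le_of_le_ofReal (by positivity) h2

/-- values are seldom larger than twice the length -/
theorem cheb (y : (EuclideanSpace ℝ (Fin n))) (R : ℝ) (hR : 0 < R) (hy : ‖y‖ ≤ R) :
    3 / 4 ≤ (stdGaussian (EuclideanSpace ℝ (Fin n))).real {g | |pr y g| ≤ 2 * R} := by
  have hmem : MemLp (pr y) 2 (stdGaussian (EuclideanSpace ℝ (Fin n))) := IsGaussian.memLp_dual _ (pr y) 2 (by norm_num)
  have h1 := meas_ge_le_variance_div_sq hmem (c := 2 * R) (by positivity)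
  rw [integral_strongDual_stdGaussian, variance_dual_stdGaussian] at h1
  have h2 : ‖pr y‖ = ‖y‖ := innerSL_apply_norm ℝ y
  rw [h2] at h1
  have h3 : (stdGaussian (EuclideanSpace ℝ (Fin n))) {g | 2 * R ≤ |pr y g - 0|} ≤ ENNReal.ofReal (1 / 4) := by
    refine h1.trans (ENNReal.ofReal_le_ofReal ?_)
    rw [div_le_iff₀ (by positivity)]
    have : ‖y‖ ^ 2 ≤ R ^ 2 := pow_le_pow_left₀ (norm_nonneg _) hy 2
    nlinarith
  have h4 : (stdGaussian (EuclideanSpace ℝ (Fin n))).real {g | |pr y g| ≤ 2 * R}ᶜ ≤ 1 / 4 := by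
    calc (stdGaussian (EuclideanSpace ℝ (Fin n))).real {g | |pr y g| ≤ 2 * R}ᶜ
        ≤ (stdGaussian (EuclideanSpace ℝ (Fin n))).real {g | 2 * R ≤ |pr y g - 0|} := by
          refine measureReal_mono ?_ (measure_ne_top _ _)
          intro g hg
          simp only [mem_compl_iff, mem_ofPred_eq, not_le] at hg
          simp only [mem_ofPred_eq, sub_zero]
          exact hg.le
      _ ≤ 1 / 4 := by
          rw [measureReal_def]
          exact ENNReal.toReal_le_of_le_ofReal (by positivity) h3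
  have hms : MeasurableSet {g : (EuclideanSpace ℝ (Fin n)) | |pr y g| ≤ 2 * R} :=
    measurableSet_le ((pr y).continuous.abs.measurable) measurable_const
  rw [measureReal_compl hms] at h4
  rw [probReal_univ] at h4
  linarith

/-- **Littlewood-Offord in Euclidean spaces.** If the signed sums of vectors, those with index in
`I` of norm at least `r`, are in a ball of radius `R` with proportion at least `η`, then `I` has at
most `512 (16 R / r + 1)² / η⁴` elements. -/
theorem hlo {V : Type} [Fintype V] [DecidableEq V] (w : V → (EuclideanSpace ℝ (Fin n))) (I : Finset V) (r R η : ℝ)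
    (hr : 0 < r) (hR : 0 < R) (hη : 0 < η) (hI : ∀ v ∈ I, r ≤ ‖w v‖) (x : (EuclideanSpace ℝ (Fin n)))
    (hT : η * 2 ^ Fintype.card V ≤ ((Finset.univ.filter (fun τ : V → Bool =>
      ‖∑ v, (if τ v then w v else - w v) - x‖ ≤ R)).card : ℝ)) :
    (I.card : ℝ) ≤ 8 * (16 * R / r + 1) ^ 2 / η ^ 4 := by
  rcases Nat.eq_zero_or_pos I.card with hI0 | hIpos
  · rw [hI0]
    push_cast
    positivity
  set T := Finset.univ.filter (fun τ : V → Bool =>
      ‖∑ v, (if τ v then w v else - w v) - x‖ ≤ R) with hTdef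
  set M : ℝ := 2 ^ Fintype.card V with hM
  have hMpos : 0 < M := by positivity
  set h : ℝ := η * r / 8 with hh
  have hhpos : 0 < h := by positivity
  have hη1 : η ≤ 1 := by
    have h1 : (T.card : ℝ) ≤ M := by
      have h2 : T.card ≤ 2 ^ Fintype.card V := by
        refine (Finset.card_le_univ _).trans (le_of_eq ?_)
        rw [Fintype.card_fun, Fintype.card_bool]
      rw [hM]
      exact_mod_cast h2
    by_contra hcon
    push Not at hcon
    nlinarith
  set Y : (V → Bool) → (EuclideanSpace ℝ (Fin n)) := fun τ => ∑ v, (if τ v then w v else - w v) - x with hY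
  set F : (EuclideanSpace ℝ (Fin n)) → ℝ := fun g => ∑ τ ∈ T, ({g | |pr (Y τ) g| ≤ 2 * R} : Set (EuclideanSpace ℝ (Fin n))).indicator 1 g -
    (2 * M / I.card) * ∑ v ∈ I, ({g | |pr (w v) g| < h} : Set (EuclideanSpace ℝ (Fin n))).indicator 1 g with hF
  have hms1 : ∀ y : (EuclideanSpace ℝ (Fin n)), MeasurableSet {g : (EuclideanSpace ℝ (Fin n)) | |pr y g| ≤ 2 * R} := fun y =>
    measurableSet_le ((pr y).continuous.abs.measurable) measurable_const
  have hms2 : ∀ y : (EuclideanSpace ℝ (Fin n)), MeasurableSet {g : (EuclideanSpace ℝ (Fin n)) | |pr y g| < h} := fun y =>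
    measurableSet_lt ((pr y).continuous.abs.measurable) measurable_const
  have hi1 : ∀ y : (EuclideanSpace ℝ (Fin n)), Integrable (({g | |pr y g| ≤ 2 * R} : Set (EuclideanSpace ℝ (Fin n))).indicator (1 : (EuclideanSpace ℝ (Fin n)) → ℝ))
      (stdGaussian (EuclideanSpace ℝ (Fin n))) := fun y => (integrable_const (1 : ℝ)).indicator (hms1 y)
  have hi2 : ∀ y : (EuclideanSpace ℝ (Fin n)), Integrable (({g | |pr y g| < h} : Set (EuclideanSpace ℝ (Fin n))).indicator (1 : (EuclideanSpace ℝ (Fin n)) → ℝ))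
      (stdGaussian (EuclideanSpace ℝ (Fin n))) := fun y => (integrable_const (1 : ℝ)).indicator (hms2 y)
  have hint1 : Integrable (fun g => ∑ τ ∈ T, ({g | |pr (Y τ) g| ≤ 2 * R} : Set (EuclideanSpace ℝ (Fin n))).indicator
      (1 : (EuclideanSpace ℝ (Fin n)) → ℝ) g) (stdGaussian (EuclideanSpace ℝ (Fin n))) := integrable_finsetSum _ fun τ _ => hi1 _
  have hint2 : Integrable (fun g => (2 * M / I.card) * ∑ v ∈ I, ({g | |pr (w v) g| < h} :
      Set (EuclideanSpace ℝ (Fin n))).indicator (1 : (EuclideanSpace ℝ (Fin n)) → ℝ) g) (stdGaussian (EuclideanSpace ℝ (Fin n))) :=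
    (integrable_finsetSum _ fun v _ => hi2 _).const_mul _
  have hIF : (η / 2) * M ≤ ∫ g, F g ∂(stdGaussian (EuclideanSpace ℝ (Fin n))) := by
    have h1 : ∫ g, F g ∂(stdGaussian (EuclideanSpace ℝ (Fin n))) =
        ∑ τ ∈ T, (stdGaussian (EuclideanSpace ℝ (Fin n))).real {g | |pr (Y τ) g| ≤ 2 * R} -
        (2 * M / I.card) * ∑ v ∈ I, (stdGaussian (EuclideanSpace ℝ (Fin n))).real {g | |pr (w v) g| < h} := by
      rw [hF, integral_sub hint1 hint2, integral_const_mul, integral_finsetSum _ fun τ _ => hi1 _,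
        integral_finsetSum _ fun v _ => hi2 _]
      congr 1
      · exact Finset.sum_congr rfl fun τ _ => integral_indicator_one (hms1 _)
      · congr 1
        exact Finset.sum_congr rfl fun v _ => integral_indicator_one (hms2 _)
    have h2 : (3 / 4 : ℝ) * T.card ≤ ∑ τ ∈ T, (stdGaussian (EuclideanSpace ℝ (Fin n))).real {g | |pr (Y τ) g| ≤ 2 * R} := by
      calc (3 / 4 : ℝ) * T.card = ∑ τ ∈ T, (3 / 4 : ℝ) := by
            rw [Finset.sum_const, nsmul_eq_mul]; ring
        _ ≤ _ := by
            apply Finset.sum_le_sum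
            intro τ hτ
            rw [hTdef, Finset.mem_filter] at hτ
            exact cheb _ R hR hτ.2
    have h3 : ∑ v ∈ I, (stdGaussian (EuclideanSpace ℝ (Fin n))).real {g | |pr (w v) g| < h} ≤ I.card * (η / 8) := by
      calc ∑ v ∈ I, (stdGaussian (EuclideanSpace ℝ (Fin n))).real {g | |pr (w v) g| < h} ≤ ∑ v ∈ I, (η / 8) := by
            apply Finset.sum_le_sum
            intro v hv
            refine (small_ball (w v) h r hhpos hr (hI v hv)).trans (le_of_eq ?_)
            rw [hh]
            field_simp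
        _ = _ := by rw [Finset.sum_const, nsmul_eq_mul]
    have hIc : (0 : ℝ) < I.card := by exact_mod_cast hIpos
    have h4 : (2 * M / I.card) * ∑ v ∈ I, (stdGaussian (EuclideanSpace ℝ (Fin n))).real {g | |pr (w v) g| < h} ≤
        M * η / 4 := by
      calc (2 * M / I.card) * ∑ v ∈ I, (stdGaussian (EuclideanSpace ℝ (Fin n))).real {g | |pr (w v) g| < h}
          ≤ (2 * M / I.card) * (I.card * (η / 8)) :=
            mul_le_mul_of_nonneg_left h3 (by positivity)
        _ = M * η / 4 := by field_simp; ring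
    rw [h1]
    nlinarith
  obtain ⟨g, hg⟩ := exists_integral_le (hint1.sub hint2)
  have hg' : (η / 2) * M ≤ F g := hIF.trans hg
  -- counts
  have hc1 : ∑ τ ∈ T, ({g | |pr (Y τ) g| ≤ 2 * R} : Set (EuclideanSpace ℝ (Fin n))).indicator (1 : (EuclideanSpace ℝ (Fin n)) → ℝ) g =
      ((T.filter (fun τ => |pr (Y τ) g| ≤ 2 * R)).card : ℝ) := by
    rw [Finset.card_filter]
    push_cast
    apply Finset.sum_congr rfl
    intro τ _
    rw [indicator_apply]
    simp only [mem_ofPred_eq, Pi.one_apply]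
  have hc2 : ∑ v ∈ I, ({g | |pr (w v) g| < h} : Set (EuclideanSpace ℝ (Fin n))).indicator (1 : (EuclideanSpace ℝ (Fin n)) → ℝ) g =
      ((I.filter (fun v => |pr (w v) g| < h)).card : ℝ) := by
    rw [Finset.card_filter]
    push_cast
    apply Finset.sum_congr rfl
    intro τ _
    rw [indicator_apply]
    simp only [mem_ofPred_eq, Pi.one_apply]
  rw [hF] at hg'
  simp only at hg'
  rw [hc1, hc2] at hg'
  set cT : ℝ := ((T.filter (fun τ => |pr (Y τ) g| ≤ 2 * R)).card : ℝ) with hcT
  set cI : ℝ := ((I.filter (fun v => |pr (w v) g| < h)).card : ℝ) with hcI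
  have hIc : (0 : ℝ) < I.card := by exact_mod_cast hIpos
  have hcTM : cT ≤ M := by
    have h2 : (T.filter (fun τ => |pr (Y τ) g| ≤ 2 * R)).card ≤ 2 ^ Fintype.card V := by
      refine (Finset.card_le_univ _).trans (le_of_eq ?_)
      rw [Fintype.card_fun, Fintype.card_bool]
    rw [hM, hcT]
    exact_mod_cast h2
  have hcI0 : 0 ≤ cI := Nat.cast_nonneg _
  have hcI2 : cI < I.card / 2 := by
    by_contra hcon
    push Not at hcon
    have : M ≤ (2 * M / I.card) * cI := by
      calc M = (2 * M / I.card) * (I.card / 2) := by field_simp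
        _ ≤ _ := mul_le_mul_of_nonneg_left hcon (by positivity)
    have h5 : 0 < η / 2 * M := by positivity
    linarith
  have hcT2 : (η / 2) * M ≤ cT := by
    have : 0 ≤ (2 * M / I.card) * cI := by positivity
    linarith
  -- one dimensional inequality
  set b : V → ℝ := fun v => pr (w v) g with hb
  obtain ⟨N, hN⟩ : ∃ N, N = (Finset.univ.filter (fun v => h ≤ |b v|)).card := ⟨_, rfl⟩
  have hNI : (I.card : ℝ) / 2 ≤ N := by
    have h1 : I.card ≤ (I.filter (fun v => |pr (w v) g| < h)).card +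
        (Finset.univ.filter (fun v => h ≤ |b v|)).card := by
      rw [← Finset.card_filter_add_card_filter_not (s := I) (fun v => |pr (w v) g| < h)]
      apply Nat.add_le_add_left
      apply Finset.card_le_card
      intro v hv
      rw [Finset.mem_filter] at hv ⊢
      exact ⟨Finset.mem_univ _, not_lt.1 hv.2⟩
    have h2 : (I.card : ℝ) ≤ cI + N := by
      rw [hcI, hN]
      exact_mod_cast h1
    linarith
  have hNpos : 0 < N := by
    have : (0 : ℝ) < N := by linarith
    exact_mod_cast this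
  have hlo := Pool.Agent.R563.RRam.LOff.lo V b h N hhpos hNpos (le_of_eq hN) (2 * R) (pr x g)
    (by positivity)
  have hsub : cT ≤ ((Finset.univ.filter (fun τ : V → Bool =>
      |∑ v, (if τ v then b v else - b v) - pr x g| ≤ 2 * R)).card : ℝ) := by
    rw [hcT]
    have : (T.filter (fun τ => |pr (Y τ) g| ≤ 2 * R)) ⊆ (Finset.univ.filter (fun τ : V → Bool =>
      |∑ v, (if τ v then b v else - b v) - pr x g| ≤ 2 * R)) := by
      intro τ hτ
      rw [Finset.mem_filter] at hτ ⊢
      refine ⟨Finset.mem_univ _, ?_⟩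
      have h1 : pr (Y τ) g = ∑ v, (if τ v then b v else - b v) - pr x g := by
        rw [hY, pr_apply, pr_apply]
        simp only
        rw [inner_sub_left, sum_inner]
        congr 1
        apply Finset.sum_congr rfl
        intro v _
        split_ifs
        · rfl
        · rw [inner_neg_left]; rfl
      rw [← h1]
      exact hτ.2
    exact_mod_cast Finset.card_le_card this
  have hNr : (0 : ℝ) < N := by exact_mod_cast hNpos
  have hfin : (η / 2) * M ≤ (16 * R / (η * r) + 1) / √N * M := by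
    refine hcT2.trans (hsub.trans (hlo.trans (le_of_eq ?_)))
    rw [hh, hM]
    have : 2 * R / (η * r / 8) = 16 * R / (η * r) := by field_simp; ring
    rw [this, one_mul]
  have h7 := le_of_mul_le_mul_right hfin hMpos
  have hsq : 0 < √(N : ℝ) := Real.sqrt_pos.2 hNr
  rw [le_div_iff₀ hsq] at h7
  have h8 : η ^ 2 * √(N : ℝ) ≤ 2 * (16 * R / r + 1) := by
    have h9 : η * (16 * R / (η * r) + 1) ≤ 16 * R / r + 1 := by
      have : η * (16 * R / (η * r)) = 16 * R / r := by field_simp
      rw [mul_add, this, mul_one]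
      linarith
    have h10 : η * (η / 2 * √(N : ℝ)) ≤ η * (16 * R / (η * r) + 1) :=
      mul_le_mul_of_nonneg_left h7 hη.le
    nlinarith
  have h11 : η ^ 4 * N ≤ 4 * (16 * R / r + 1) ^ 2 := by
    have h12 : (η ^ 2 * √(N : ℝ)) ^ 2 ≤ (2 * (16 * R / r + 1)) ^ 2 :=
      pow_le_pow_left₀ (by positivity) h8 2
    rw [mul_pow, Real.sq_sqrt hNr.le] at h12
    nlinarith
  rw [le_div_iff₀ (by positivity)]
  have h13 : (I.card : ℝ) * η ^ 4 ≤ 2 * (η ^ 4 * N) := by
    have : (I.card : ℝ) ≤ 2 * N := by linarith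
    have h14 : 0 < η ^ 4 := by positivity
    nlinarith
  linarith

end Pool.Agent.R934.LB
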