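import Pool.Agent.R934.LB.Count
set_option autoImplicit false
set_option linter.unusedVariables false

/-! Lattices with large minimum by counting, and their points in a ball. -/

open scoped Classical Pointwise
open Finset

namespace Pool.Agent.R934.LB

/-- reduction modulo `p` -/
def red {n : ℕ} (p : ℕ) (z : Fin n → ℤ) : Fin n → ZMod p := fun i => (z i : ZMod p)

theorem red_add {n p : ℕ} (x y : Fin n → ℤ) : red p (x + y) = red p x + red p y := by
  funext i; simp [red]

theorem red_neg {n p : ℕ} (x : Fin n → ℤ) : red p (-x) = -red p x := by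
  funext i; simp [red]

theorem red_sub {n p : ℕ} (x y : Fin n → ℤ) : red p (x - y) = red p x - red p y := by
  funext i; simp [red]

/-- the integer vectors congruent modulo `p` to a multiple of `u` -/
def Lat {n p : ℕ} (u : Fin n → ZMod p) : AddSubgroup (Fin n → ℤ) where
  carrier := {z | ∃ t : ZMod p, red p z = t • u}
  zero_mem' := ⟨0, by funext i; simp [red]⟩
  add_mem' := by
    rintro a b ⟨s, hs⟩ ⟨t, ht⟩
    exact ⟨s + t, by rw [red_add, hs, ht, add_smul]⟩
  neg_mem' := by
    rintro a ⟨s, hs⟩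
    exact ⟨-s, by rw [red_neg, hs, neg_smul]⟩

theorem mem_Lat {n p : ℕ} (u : Fin n → ZMod p) (z : Fin n → ℤ) :
    z ∈ Lat u ↔ ∃ t : ZMod p, red p z = t • u := Iff.rfl

theorem exists_dir {n p q : ℕ} (hn : 2 ≤ n) [hp : Fact p.Prime] (h1 : (23 * q) ^ n ≤ p ^ (n - 1))
    (hq : 1 ≤ q) (h2 : q * n < p) :
    ∃ u : Fin n → ZMod p, u ≠ 0 ∧ ∀ z ∈ Lat u, z ≠ 0 → (q : ℤ) ^ 2 * n < sq z := by
  by_contra hcon
  push Not at hcon
  have hp1 : 1 < p := hp.out.one_lt
  -- the nonzero short vectors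
  set M : ℕ := q * n with hM
  set S : Finset (Fin n → ℤ) := (Fintype.piFinset fun _ : Fin n => Finset.Icc (-(M : ℤ)) M).filter
    (fun z => sq z ≤ (q : ℤ) ^ 2 * n) with hS
  have hbox : ∀ z : Fin n → ℤ, sq z ≤ (q : ℤ) ^ 2 * n → ∀ i, -(M : ℤ) ≤ z i ∧ z i ≤ M := by
    intro z hz i
    have h3 := coord_le z i
    have h4 : z i ^ 2 ≤ (M : ℤ) ^ 2 := by
      rw [hM]
      push_cast
      have h5 : (q : ℤ) ^ 2 * n ≤ ((q : ℤ) * n) ^ 2 := by
        rw [mul_pow]
        apply mul_le_mul_of_nonneg_left _ (by positivity)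
        have : (1 : ℤ) ≤ n := by exact_mod_cast (by omega : 1 ≤ n)
        nlinarith
      linarith
    have h6 := abs_le_of_sq_le_sq h4 (by positivity)
    exact abs_le.1 h6
  have hSmem : ∀ z : Fin n → ℤ, sq z ≤ (q : ℤ) ^ 2 * n → z ∈ S := by
    intro z hz
    rw [hS, Finset.mem_filter, Fintype.mem_piFinset]
    exact ⟨fun i => Finset.mem_Icc.2 (hbox z hz i), hz⟩
  have hScard : S.card ≤ (23 * q) ^ n := by
    have hq' : (1 : ℝ) ≤ q := by exact_mod_cast hq
    have h3 := count_le (n := n) (q : ℝ) (by linarith) S (by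
      intro z hz
      rw [hS, Finset.mem_filter] at hz
      exact_mod_cast hz.2)
    have h4 : (15 * (1 + (q : ℝ) / 2)) ^ n ≤ (23 * q) ^ n :=
      pow_le_pow_left₀ (by positivity) (by linarith) n
    exact_mod_cast h3.trans h4
  have h0S : (0 : Fin n → ℤ) ∈ S := hSmem 0 (by simp only [sq]; simp; positivity)
  -- all nonzero directions are bad
  set U : Finset (ZMod p) := Finset.univ.erase 0 with hU
  have hUcard : U.card = p - 1 := by
    rw [hU, Finset.card_erase_of_mem (Finset.mem_univ _), Finset.card_univ, ZMod.card]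
  have hcov : (Finset.univ : Finset (Fin n → ZMod p)).erase 0 ⊆
      (U ×ˢ (S.erase 0)).image (fun w => w.1 • red p w.2) := by
    intro u hu
    have hu0 : u ≠ 0 := (Finset.mem_erase.1 hu).1
    obtain ⟨z, ⟨t, ht⟩, hz0, hz⟩ := hcon u hu0
    have hzred : red p z ≠ 0 := by
      intro h
      apply hz0
      funext i
      have h3 : ((z i : ℤ) : ZMod p) = 0 := congrFun h i
      rw [ZMod.intCast_zmod_eq_zero_iff_dvd] at h3
      have h4 := hbox z hz i
      have h5 : (M : ℤ) < p := by exact_mod_cast h2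
      exact Int.eq_zero_of_abs_lt_dvd h3 (abs_lt.2 ⟨by linarith [h4.1], by linarith [h4.2]⟩)
    have ht0 : t ≠ 0 := by
      rintro rfl
      rw [zero_smul] at ht
      exact hzred ht
    rw [Finset.mem_image]
    refine ⟨(t⁻¹, z), ?_, ?_⟩
    · rw [Finset.mem_product, hU]
      exact ⟨Finset.mem_erase.2 ⟨inv_ne_zero ht0, Finset.mem_univ _⟩,
        Finset.mem_erase.2 ⟨hz0, hSmem z hz⟩⟩
    · show t⁻¹ • red p z = u
      rw [ht, smul_smul, inv_mul_cancel₀ ht0, one_smul]
  have hcard := (Finset.card_le_card hcov).trans Finset.card_image_le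
  rw [Finset.card_product, hUcard, Finset.card_erase_of_mem h0S,
    Finset.card_erase_of_mem (Finset.mem_univ _), Finset.card_univ, Fintype.card_fun, ZMod.card,
    Fintype.card_fin] at hcard
  have h3 : S.card - 1 ≤ p ^ (n - 1) - 1 := by omega
  have h4 : p ^ n - 1 ≤ (p - 1) * (p ^ (n - 1) - 1) := hcard.trans (Nat.mul_le_mul_left _ h3)
  obtain ⟨k, rfl⟩ : ∃ k, n = k + 1 := ⟨n - 1, by omega⟩
  rw [Nat.add_sub_cancel] at h4
  have h5 : 1 ≤ p ^ k := Nat.one_le_pow _ _ (by omega)
  have h6 : p ≤ p ^ k := by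
    calc p = p ^ 1 := (pow_one p).symm
      _ ≤ p ^ k := Nat.pow_le_pow_right (by omega) (by omega)
  obtain ⟨P, hP⟩ : ∃ P, p ^ k = P + 1 := ⟨p ^ k - 1, by omega⟩
  obtain ⟨r, rfl⟩ : ∃ r, p = r + 1 := ⟨p - 1, by omega⟩
  rw [pow_succ, hP] at h4
  have h7 : (P + 1) * (r + 1) - 1 = P * r + P + r := by
    have : (P + 1) * (r + 1) = P * r + P + r + 1 := by ring
    omega
  rw [h7] at h4
  have h8 : (r + 1 - 1) * (P + 1 - 1) = P * r := by
    rw [Nat.add_sub_cancel, Nat.add_sub_cancel, mul_comm]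
  rw [h8] at h4
  omega

/-- some class modulo the lattice contains many points of a finite set -/
theorem class_count {n p : ℕ} [hp : Fact p.Prime] (u : Fin n → ZMod p) (hu : u ≠ 0)
    (Q : Finset (Fin n → ℤ)) (hQ : Q.Nonempty) :
    ∃ x₀ ∈ Q, Q.card ≤ (Q.filter (fun x => x - x₀ ∈ Lat u)).card * p ^ (n - 1) := by
  obtain ⟨i₀, hi₀⟩ : ∃ i, u i ≠ 0 := by
    by_contra h
    push Not at h
    exact hu (funext h)
  set c : (Fin n → ℤ) → (Fin n → ZMod p) := fun x =>
    red p x - ((x i₀ : ZMod p) * (u i₀)⁻¹) • u with hc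
  have hcc : ∀ x y, c x = c y → x - y ∈ Lat u := by
    intro x y hxy
    rw [mem_Lat, red_sub]
    refine ⟨(x i₀ : ZMod p) * (u i₀)⁻¹ - (y i₀ : ZMod p) * (u i₀)⁻¹, ?_⟩
    rw [sub_smul]
    have h : red p x - ((x i₀ : ZMod p) * (u i₀)⁻¹) • u =
        red p y - ((y i₀ : ZMod p) * (u i₀)⁻¹) • u := hxy
    rw [sub_eq_sub_iff_add_eq_add] at h
    rw [sub_eq_sub_iff_add_eq_add, h]
    abel
  set T : Finset (Fin n → ZMod p) := Fintype.piFinset
    (fun i => if i = i₀ then ({0} : Finset (ZMod p)) else Finset.univ) with hT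
  have hTcard : T.card = p ^ (n - 1) := by
    rw [hT, Fintype.card_piFinset]
    have : ∀ i : Fin n, (if i = i₀ then ({0} : Finset (ZMod p)) else Finset.univ).card =
        if i = i₀ then 1 else p := by
      intro i
      split_ifs
      · simp
      · rw [Finset.card_univ, ZMod.card]
    simp only [this]
    rw [Finset.prod_ite, Finset.prod_const_one, one_mul, Finset.prod_const]
    congr 1
    have h3 : (Finset.univ.filter fun i : Fin n => ¬ i = i₀) = Finset.univ.erase i₀ := by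
      ext i; simp
    rw [h3, Finset.card_erase_of_mem (Finset.mem_univ _), Finset.card_univ, Fintype.card_fin]
  have hcT : ∀ x, c x ∈ T := by
    intro x
    rw [hT, Fintype.mem_piFinset]
    intro i
    split_ifs with h
    · rw [Finset.mem_singleton, h, hc]
      simp [red, mul_assoc, inv_mul_cancel₀ hi₀]
    · exact Finset.mem_univ _
  obtain ⟨x₀, hx₀, hmax⟩ := Finset.exists_max_image Q (fun x => (Q.filter (fun y => c y = c x)).card) hQ
  refine ⟨x₀, hx₀, ?_⟩
  have h1 := Finset.card_le_mul_card_image (f := c) Q ((Q.filter (fun y => c y = c x₀)).card) (by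
    intro a ha
    obtain ⟨x, hx, rfl⟩ := Finset.mem_image.1 ha
    exact hmax x hx)
  have h2 : (Q.image c).card ≤ p ^ (n - 1) := by
    rw [← hTcard]
    apply Finset.card_le_card
    intro w hw
    obtain ⟨x, hx, rfl⟩ := Finset.mem_image.1 hw
    exact hcT x
  have h3 : (Q.filter (fun y => c y = c x₀)).card ≤ (Q.filter (fun x => x - x₀ ∈ Lat u)).card := by
    apply Finset.card_le_card
    intro y hy
    rw [Finset.mem_filter] at hy ⊢
    exact ⟨hy.1, hcc _ _ hy.2⟩
  exact h1.trans (Nat.mul_le_mul h3 h2)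

/-- lattice points in a ball -/
noncomputable def Bl {n p : ℕ} (u : Fin n → ZMod p) (s : ℕ) (c : ℕ) : Finset (Fin n → ℤ) :=
  (Fintype.piFinset fun _ : Fin n => Finset.Icc (-((c * s * n : ℕ) : ℤ)) (c * s * n : ℕ)).filter
    (fun z => z ∈ Lat u ∧ sq z ≤ ((c : ℤ) * s) ^ 2 * n)

theorem mem_Bl {n p : ℕ} (hn : 1 ≤ n) (u : Fin n → ZMod p) (s c : ℕ) (z : Fin n → ℤ) :
    z ∈ Bl u s c ↔ z ∈ Lat u ∧ sq z ≤ ((c : ℤ) * s) ^ 2 * n := by
  unfold Bl
  rw [Finset.mem_filter, Fintype.mem_piFinset]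
  constructor
  · exact fun h => h.2
  · intro h
    refine ⟨fun i => ?_, h⟩
    have h3 := coord_le z i
    have h4 : z i ^ 2 ≤ ((c * s * n : ℕ) : ℤ) ^ 2 := by
      push_cast
      have h5 : ((c : ℤ) * s) ^ 2 * n ≤ ((c : ℤ) * s * n) ^ 2 := by
        rw [mul_pow _ (n : ℤ)]
        apply mul_le_mul_of_nonneg_left _ (by positivity)
        have : (1 : ℤ) ≤ n := by exact_mod_cast hn
        nlinarith
      linarith [h.2]
    have h6 := abs_le_of_sq_le_sq h4 (by positivity)
    rw [Finset.mem_Icc]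
    exact abs_le.1 h6

theorem sq_add_le {n : ℕ} (x y : Fin n → ℤ) : sq (x + y) ≤ 2 * sq x + 2 * sq y := by
  unfold sq
  rw [Finset.mul_sum, Finset.mul_sum, ← Finset.sum_add_distrib]
  apply Finset.sum_le_sum
  intro i _
  rw [Pi.add_apply]
  nlinarith [sq_nonneg (x i - y i)]

theorem sq_neg {n : ℕ} (x : Fin n → ℤ) : sq (-x) = sq x := by
  unfold sq
  exact Finset.sum_congr rfl fun i _ => by rw [Pi.neg_apply]; ring

theorem sq_sub_le {n : ℕ} (x y : Fin n → ℤ) : sq (x - y) ≤ 2 * sq x + 2 * sq y := by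
  rw [sub_eq_add_neg]
  have := sq_add_le x (-y)
  rwa [sq_neg] at this

/-- doubling -/
theorem ball_two {n p : ℕ} (hn : 1 ≤ n) (u : Fin n → ZMod p) (s : ℕ) (hs : 1 ≤ s) :
    ((Bl u s 2).card : ℝ) ≤ 45 ^ n * ((Bl u s 1).card : ℝ) := by
  set F : (Fin n → ℤ) → (Fin n → ℤ) := fun z i => z i / (s : ℤ) with hF
  have hs' : (0 : ℤ) < s := by exact_mod_cast hs
  have hfib : ∀ a ∈ (Bl u s 2).image F, ((Bl u s 2).filter (fun x => F x = a)).card ≤
      (Bl u s 1).card := by
    intro a ha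
    obtain ⟨z₀, hz₀, rfl⟩ := Finset.mem_image.1 ha
    apply Finset.card_le_card_of_injOn (fun z => z - z₀)
    · intro z hz
      rw [Finset.coe_filter, Set.mem_ofPred_eq] at hz
      rw [Finset.mem_coe, mem_Bl hn]
      rw [mem_Bl hn] at hz₀ hz
      refine ⟨(Lat u).sub_mem hz.1.1 hz₀.1, ?_⟩
      unfold sq
      calc ∑ i, (z - z₀) i ^ 2 ≤ ∑ i : Fin n, (s : ℤ) ^ 2 := by
            apply Finset.sum_le_sum
            intro i _
            have h1 : z i / (s : ℤ) = z₀ i / (s : ℤ) := congrFun hz.2 i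
            have h2 := Int.emod_add_mul_ediv (z i) s
            have h3 := Int.emod_add_mul_ediv (z₀ i) s
            have h4 := Int.emod_nonneg (z i) hs'.ne'
            have h5 := Int.emod_nonneg (z₀ i) hs'.ne'
            have h6 := Int.emod_lt_of_pos (z i) hs'
            have h7 := Int.emod_lt_of_pos (z₀ i) hs'
            rw [h1] at h2
            rw [Pi.sub_apply]
            have h8 : z i - z₀ i = z i % s - z₀ i % s := by linarith
            rw [h8]
            apply sq_le_sq'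
            · linarith
            · linarith
        _ = ((1 : ℕ) * (s : ℤ)) ^ 2 * n := by
            rw [Finset.sum_const, Finset.card_univ, Fintype.card_fin, nsmul_eq_mul]
            push_cast
            ring
    · intro x _ y _ h
      exact sub_left_injective h
  have h1 := Finset.card_le_mul_card_image (f := F) (Bl u s 2) _ hfib
  have h2 : (((Bl u s 2).image F).card : ℝ) ≤ 45 ^ n := by
    have h3 := count_le (n := n) 4 (by norm_num) ((Bl u s 2).image F) (by
      intro a ha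
      obtain ⟨z, hz, rfl⟩ := Finset.mem_image.1 ha
      rw [mem_Bl hn] at hz
      have h4 : (s : ℤ) ^ 2 * sq (F z) ≤ (s : ℤ) ^ 2 * (10 * n) := by
        have h5 : (s : ℤ) ^ 2 * sq (F z) ≤ 2 * sq z + 2 * ((s : ℤ) ^ 2 * n) := by
          have h6 : ((s : ℤ) ^ 2 * n) = ∑ i : Fin n, (s : ℤ) ^ 2 := by
            rw [Finset.sum_const, Finset.card_univ, Fintype.card_fin, nsmul_eq_mul, mul_comm]
          rw [h6]
          unfold sq
          rw [Finset.mul_sum, Finset.mul_sum, Finset.mul_sum, ← Finset.sum_add_distrib]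
          apply Finset.sum_le_sum
          intro i _
          have h2 := Int.emod_add_mul_ediv (z i) s
          have h4 := Int.emod_nonneg (z i) hs'.ne'
          have h6 := Int.emod_lt_of_pos (z i) hs'
          show (s : ℤ) ^ 2 * (z i / (s : ℤ)) ^ 2 ≤ 2 * z i ^ 2 + 2 * (s : ℤ) ^ 2
          set w := z i / (s : ℤ)
          set r := z i % (s : ℤ)
          have h7 : (s : ℤ) * w = z i - r := by linarith
          have h8 : (s : ℤ) ^ 2 * w ^ 2 = (z i - r) ^ 2 := by rw [← h7]; ring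
          rw [h8]
          nlinarith [sq_nonneg (z i + r)]
        have h9 := hz.2
        push_cast at h9
        nlinarith
      have h5 : sq (F z) ≤ 10 * n := le_of_mul_le_mul_left h4 (by positivity)
      have h6 : (sq (F z) : ℝ) ≤ 10 * n := by exact_mod_cast h5
      have h7 : (0:ℝ) ≤ n := Nat.cast_nonneg n
      nlinarith)
    refine h3.trans (le_of_eq ?_)
    norm_num
  calc ((Bl u s 2).card : ℝ) ≤ (((Bl u s 1).card * ((Bl u s 2).image F).card : ℕ) : ℝ) := by
        exact_mod_cast h1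
    _ = ((Bl u s 1).card : ℝ) * (((Bl u s 2).image F).card : ℝ) := by push_cast; ring
    _ ≤ ((Bl u s 1).card : ℝ) * 45 ^ n := mul_le_mul_of_nonneg_left h2 (Nat.cast_nonneg _)
    _ = 45 ^ n * ((Bl u s 1).card : ℝ) := mul_comm _ _

/-- lower bound for the number of points -/
theorem ball_large {n p : ℕ} (hn : 1 ≤ n) [hp : Fact p.Prime] (u : Fin n → ZMod p) (hu : u ≠ 0)
    (s : ℕ) (hs : 1 ≤ s) : s ^ n ≤ (Bl u s 1).card * p ^ (n - 1) := by
  set Q : Finset (Fin n → ℤ) := Fintype.piFinset fun _ : Fin n => Finset.Ico (0 : ℤ) s with hQ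
  have hQcard : Q.card = s ^ n := by
    rw [hQ, Fintype.card_piFinset]
    simp
  have hQne : Q.Nonempty := by
    rw [← Finset.card_pos, hQcard]
    positivity
  obtain ⟨x₀, hx₀, h⟩ := class_count u hu Q hQne
  rw [hQcard] at h
  refine h.trans (Nat.mul_le_mul_right _ ?_)
  apply Finset.card_le_card_of_injOn (fun z => z - x₀)
  · intro z hz
    rw [Finset.coe_filter, Set.mem_ofPred_eq] at hz
    rw [Finset.mem_coe, mem_Bl hn]
    refine ⟨hz.2, ?_⟩
    rw [hQ, Fintype.mem_piFinset] at hx₀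
    have hz1 := hz.1
    rw [hQ, Fintype.mem_piFinset] at hz1
    unfold sq
    calc ∑ i, (z - x₀) i ^ 2 ≤ ∑ i : Fin n, (s : ℤ) ^ 2 := by
          apply Finset.sum_le_sum
          intro i _
          have h1 := Finset.mem_Ico.1 (hz1 i)
          have h2 := Finset.mem_Ico.1 (hx₀ i)
          rw [Pi.sub_apply]
          apply sq_le_sq'
          · linarith
          · linarith
      _ = ((1 : ℕ) * (s : ℤ)) ^ 2 * n := by
          rw [Finset.sum_const, Finset.card_univ, Fintype.card_fin, nsmul_eq_mul]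
          push_cast
          ring
  · intro x _ y _ h
    exact sub_left_injective h

/-- the parameters -/
theorem exists_params (n : ℕ) (hn : 2 ≤ n) :
    ∃ p q : ℕ, p.Prime ∧ 1 ≤ q ∧ (23 * q) ^ n ≤ p ^ (n - 1) ∧ p ^ (n - 1) ≤ (46 * q) ^ n ∧
      q * n < p := by
  obtain ⟨p, hp1, hp⟩ := Nat.exists_infinite_primes (23 ^ n * n ^ n + 1)
  have hex : ∃ q : ℕ, p ^ (n - 1) < (23 * (q + 1)) ^ n := by
    refine ⟨p ^ (n - 1), ?_⟩
    calc p ^ (n - 1) < 23 * (p ^ (n - 1) + 1) := by omega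
      _ = (23 * (p ^ (n - 1) + 1)) ^ 1 := (pow_one _).symm
      _ ≤ _ := Nat.pow_le_pow_right (by omega) (by omega)
  set q := Nat.find hex with hq
  have h1 : p ^ (n - 1) < (23 * (q + 1)) ^ n := Nat.find_spec hex
  have hnn : 1 ≤ n ^ n := Nat.one_le_pow _ _ (by omega)
  have h23 : 23 ^ n ≤ p ^ (n - 1) := by
    calc 23 ^ n ≤ 23 ^ n * n ^ n := Nat.le_mul_of_pos_right _ (by omega)
      _ ≤ p := by omega
      _ = p ^ 1 := (pow_one p).symm
      _ ≤ p ^ (n - 1) := Nat.pow_le_pow_right hp.pos (by omega)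
  have hq1 : 1 ≤ q := by
    rw [Nat.one_le_iff_ne_zero]
    intro h
    rw [h, zero_add, mul_one] at h1
    omega
  have h2 : (23 * q) ^ n ≤ p ^ (n - 1) := by
    have h3 := Nat.find_min hex (m := q - 1) (by omega)
    rw [not_lt] at h3
    rwa [Nat.sub_add_cancel hq1] at h3
  refine ⟨p, q, hp, hq1, h2, ?_, ?_⟩
  · refine h1.le.trans (Nat.pow_le_pow_left (by omega) n)
  · have h3 : (23 * q * n) ^ n ≤ p ^ n := by
      rw [mul_pow]
      calc (23 * q) ^ n * n ^ n ≤ p ^ (n - 1) * n ^ n := Nat.mul_le_mul_right _ h2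
        _ ≤ p ^ (n - 1) * p := by
            apply Nat.mul_le_mul_left
            have : n ^ n ≤ 23 ^ n * n ^ n := Nat.le_mul_of_pos_left _ (by positivity)
            omega
        _ = p ^ n := by rw [← pow_succ, Nat.sub_add_cancel (by omega)]
    have h4 : 23 * q * n ≤ p := (Nat.pow_le_pow_iff_left (by omega)).1 h3
    have h5 : 1 ≤ q * n := Nat.one_le_iff_ne_zero.2 (by positivity)
    nlinarith

end Pool.Agent.R934.LB
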