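import Pool.Agent.R934.LB.Density
set_option autoImplicit false
set_option linter.unusedVariables false

/-! The main theorem on balls of lattices. -/

open scoped Classical Pointwise
open Finset

namespace Pool.Agent.R934.LB

/-- The number of sides `Nᵢ` with `2 ≤ Nᵢ < N₀`. -/
noncomputable def short {d : ℕ} (N₀ : ℕ) (N : Fin d → ℕ) : ℕ :=
  (Finset.univ.filter (fun i => 2 ≤ N i ∧ N i < N₀)).card

theorem short_sides {n p q ρ N₀ : ℕ} (hn : 1 ≤ n) (hq : 1 ≤ q) (hN₀ : 2 ≤ N₀) (ε : ℝ) (hε : 0 < ε)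
    (hρN : 4 * (ρ : ℝ) + 1 ≤ (N₀ : ℝ) ^ ε) (u : Fin n → ZMod p)
    (hu : ∀ z ∈ Lat u, z ≠ 0 → (q : ℤ) ^ 2 * n < sq z) (d : ℕ) (a : Fin n → ℤ)
    (v : Fin d → Fin n → ℤ) (N : Fin d → ℕ) :
    ((((Bl u (ρ * q) 1 : Set (Fin n → ℤ)) ∩ Prog a v N).ncard : ℕ) : ℝ) ≤
      (N₀ : ℝ) ^ (short N₀ N) * ((Prog a v N).ncard : ℝ) ^ ε := by
  by_cases hN : ∃ i, N i = 0
  · obtain ⟨i, hi⟩ := hN
    have : Prog a v N = ∅ := by
      ext y
      simp only [Prog, Set.mem_ofPred_eq, Set.mem_empty_iff_false, iff_false]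
      rintro ⟨k, hk, -⟩
      have := hk i
      omega
    rw [this, Set.inter_empty, Set.ncard_empty]
    push_cast
    positivity
  push Not at hN
  have hN1 : ∀ i, 1 ≤ N i := fun i => Nat.one_le_iff_ne_zero.2 (hN i)
  set N' : Fin d → ℕ := fun i => if 2 ≤ N i ∧ N i < N₀ then 1 else N i with hN'
  set T : Finset (Fin d → ℕ) := Fintype.piFinset (fun i : Fin d =>
    if 2 ≤ N i ∧ N i < N₀ then Finset.range (N i) else {0}) with hT
  have hTcard : T.card ≤ N₀ ^ (short N₀ N) := by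
    rw [hT, Fintype.card_piFinset]
    calc ∏ i, (if 2 ≤ N i ∧ N i < N₀ then Finset.range (N i) else ({0} : Finset ℕ)).card
        ≤ ∏ i, (if 2 ≤ N i ∧ N i < N₀ then N₀ else 1) := by
          apply Finset.prod_le_prod' 
          intro i _
          split_ifs with h
          · rw [Finset.card_range]; exact h.2.le
          · simp
      _ = N₀ ^ (short N₀ N) := by
          rw [Finset.prod_ite, Finset.prod_const_one, mul_one, Finset.prod_const]
          rfl
  have hN'cond : ∀ i, N' i = 1 ∨ N₀ ≤ N' i := by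
    intro i
    simp only [hN']
    split_ifs with h
    · exact Or.inl rfl
    · push Not at h
      by_cases h2 : 2 ≤ N i
      · exact Or.inr (h h2)
      · left
        have := hN1 i
        omega
  set ak : (Fin d → ℕ) → (Fin n → ℤ) := fun k => a + ∑ i, k i • v i with hak
  have hsubP : ∀ k ∈ T, Prog (ak k) v N' ⊆ Prog a v N := by
    rintro k hk _ ⟨l, hl, rfl⟩
    rw [hT, Fintype.mem_piFinset] at hk
    refine ⟨fun i => k i + l i, ?_, ?_⟩
    · intro i
      have h1 := hk i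
      have h2 := hl i
      simp only [hN'] at h2
      split_ifs at h1 h2 with h
      · rw [Finset.mem_range] at h1
        show k i + l i < N i
        omega
      · rw [Finset.mem_singleton] at h1
        show k i + l i < N i
        omega
    · rw [hak]
      simp only [add_smul, Finset.sum_add_distrib]
      abel
  have hcov : ((Bl u (ρ * q) 1 : Set (Fin n → ℤ)) ∩ Prog a v N) ⊆
      ⋃ k ∈ T, ((Bl u (ρ * q) 1 : Set (Fin n → ℤ)) ∩ Prog (ak k) v N') := by
    rintro _ ⟨hy, ⟨k, hk, rfl⟩⟩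
    rw [Set.mem_iUnion₂]
    refine ⟨fun i => if 2 ≤ N i ∧ N i < N₀ then k i else 0, ?_, hy, 
      fun i => if 2 ≤ N i ∧ N i < N₀ then 0 else k i, ?_, ?_⟩
    · rw [hT, Fintype.mem_piFinset]
      intro i
      split_ifs with h
      · rw [Finset.mem_range]; exact hk i
      · exact Finset.mem_singleton_self _
    · intro i
      simp only [hN']
      split_ifs with h
      · omega
      · exact hk i
    · rw [hak]
      simp only
      rw [add_assoc, ← Finset.sum_add_distrib]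
      congr 1
      apply Finset.sum_congr rfl
      intro i _
      rw [← add_smul]
      congr 1
      split_ifs <;> simp
  have hfinU : (⋃ k ∈ T, ((Bl u (ρ * q) 1 : Set (Fin n → ℤ)) ∩ Prog (ak k) v N')).Finite :=
    Set.Finite.biUnion T.finite_toSet fun k _ => (prog_finite _ _ _).subset Set.inter_subset_right
  have hpiece : ∀ k ∈ T, ((((Bl u (ρ * q) 1 : Set (Fin n → ℤ)) ∩ Prog (ak k) v N').ncard : ℕ) : ℝ) ≤
      ((Prog a v N).ncard : ℝ) ^ ε := by
    intro k hk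
    obtain ⟨e, he1, he2⟩ := long_sides (ρ := ρ) hn hq hN₀ u hu d (ak k) v N' hN'cond
    have h3 : N₀ ^ e ≤ (Prog a v N).ncard :=
      he1.trans (Set.ncard_le_ncard (hsubP k hk) (prog_finite _ _ _))
    calc ((((Bl u (ρ * q) 1 : Set (Fin n → ℤ)) ∩ Prog (ak k) v N').ncard : ℕ) : ℝ)
        ≤ (4 * (ρ : ℝ) + 1) ^ e := he2
      _ ≤ ((N₀ : ℝ) ^ ε) ^ e := pow_le_pow_left₀ (by positivity) hρN e
      _ = ((N₀ : ℝ) ^ e) ^ ε := by
          rw [← Real.rpow_natCast, ← Real.rpow_natCast, ← Real.rpow_mul (by positivity),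
            ← Real.rpow_mul (by positivity), mul_comm]
      _ ≤ ((Prog a v N).ncard : ℝ) ^ ε :=
          Real.rpow_le_rpow (by positivity) (by exact_mod_cast h3) hε.le
  calc ((((Bl u (ρ * q) 1 : Set (Fin n → ℤ)) ∩ Prog a v N).ncard : ℕ) : ℝ)
      ≤ (((⋃ k ∈ T, ((Bl u (ρ * q) 1 : Set (Fin n → ℤ)) ∩ Prog (ak k) v N')).ncard : ℕ) : ℝ) := by
        exact_mod_cast Set.ncard_le_ncard hcov hfinU
    _ ≤ ((∑ k ∈ T, ((Bl u (ρ * q) 1 : Set (Fin n → ℤ)) ∩ Prog (ak k) v N').ncard : ℕ) : ℝ) := by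
        exact_mod_cast Finset.set_ncard_biUnion_le T _
    _ = ∑ k ∈ T, ((((Bl u (ρ * q) 1 : Set (Fin n → ℤ)) ∩ Prog (ak k) v N').ncard : ℕ) : ℝ) := by
        push_cast; rfl
    _ ≤ ∑ k ∈ T, ((Prog a v N).ncard : ℝ) ^ ε := Finset.sum_le_sum hpiece
    _ = (T.card : ℝ) * ((Prog a v N).ncard : ℝ) ^ ε := by rw [Finset.sum_const, nsmul_eq_mul]
    _ ≤ (N₀ : ℝ) ^ (short N₀ N) * ((Prog a v N).ncard : ℝ) ^ ε := by
        apply mul_le_mul_of_nonneg_right _ (by positivity)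
        exact_mod_cast hTcard

theorem image_prog {G H : Type} [AddCommGroup G] [AddCommGroup H] (f : G →+ H) {d : ℕ} (a : G)
    (v : Fin d → G) (N : Fin d → ℕ) : f '' Prog a v N = Prog (f a) (fun i => f (v i)) N := by
  ext y
  constructor
  · rintro ⟨x, ⟨k, hk, rfl⟩, rfl⟩
    exact ⟨k, hk, by rw [map_add, map_sum]; simp only [map_nsmul]⟩
  · rintro ⟨k, hk, rfl⟩
    exact ⟨_, ⟨k, hk, rfl⟩, by rw [map_add, map_sum]; simp only [map_nsmul]⟩

theorem image_transl {G H : Type} [AddCommGroup G] [AddCommGroup H] (f : G →+ H) (A : Set G)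
    (m : ℕ) (x : G) : f '' Transl A m x ⊆ Transl (f '' A) m (f x) := by
  rintro _ ⟨_, ⟨g, h, hg, hh, rfl⟩, rfl⟩
  refine ⟨fun j => f (g j), fun j => f (h j), fun j => ⟨_, hg j, rfl⟩, fun j => ⟨_, hh j, rfl⟩, ?_⟩
  rw [map_add, map_sub, map_sum, map_sum]

end Pool.Agent.R934.LB
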