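import Pool.Agent.R934.LB.Corner
set_option autoImplicit false
set_option linter.unusedVariables false

/-! Progressions with long sides meet a ball of the lattice in few points. -/

open scoped Classical Pointwise
open Finset Metric Set MeasureTheory Module

namespace Pool.Agent.R934.LB

/-- Packing: points of norm at most `r` with mutual distances at least `1` in dimension `e` are at
most `(2 r + 1) ^ e`. -/
theorem card_le_sep {E : Type*} [NormedAddCommGroup E] [NormedSpace ℝ E] [FiniteDimensional ℝ E]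
    (s : Finset E) (r : ℝ) (hr : 0 ≤ r) (hs : ∀ c ∈ s, ‖c‖ ≤ r)
    (h : ∀ c ∈ s, ∀ d ∈ s, c ≠ d → 1 ≤ ‖c - d‖) : (s.card : ℝ) ≤ (2 * r + 1) ^ finrank ℝ E := by
  borelize E
  let μ : Measure E := Measure.addHaar
  let δ : ℝ := (1 : ℝ) / 2
  let ρ : ℝ := r + 1 / 2
  have ρpos : 0 < ρ := by positivity
  set A := ⋃ c ∈ s, ball (c : E) δ with hA
  have D : Set.Pairwise (s : Set E) (Function.onFun Disjoint fun c => ball (c : E) δ) := by
    rintro c hc d hd hcd
    apply ball_disjoint_ball
    rw [dist_eq_norm]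
    have := h c hc d hd hcd
    have h2 : δ + δ = 1 := by norm_num [δ]
    linarith
  have A_subset : A ⊆ ball (0 : E) ρ := by
    refine iUnion₂_subset fun x hx => ?_
    apply ball_subset_ball'
    calc
      δ + dist x 0 ≤ δ + r := by rw [dist_zero_right]; exact add_le_add le_rfl (hs x hx)
      _ = ρ := by simp only [δ, ρ]; ring
  have I :
    (s.card : ENNReal) * ENNReal.ofReal (δ ^ finrank ℝ E) * μ (ball 0 1) ≤
      ENNReal.ofReal (ρ ^ finrank ℝ E) * μ (ball 0 1) :=
    calc
      (s.card : ENNReal) * ENNReal.ofReal (δ ^ finrank ℝ E) * μ (ball 0 1) = μ A := by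
        rw [hA, measure_biUnion_finset D fun c _ => measurableSet_ball]
        have I : 0 < δ := by norm_num [δ]
        simp only [μ.addHaar_ball_of_pos _ I]
        simp only [Finset.sum_const, nsmul_eq_mul, mul_assoc]
      _ ≤ μ (ball (0 : E) ρ) := measure_mono A_subset
      _ = ENNReal.ofReal (ρ ^ finrank ℝ E) * μ (ball 0 1) := by
        simp only [μ.addHaar_ball_of_pos _ ρpos]
  have J : (s.card : ENNReal) * ENNReal.ofReal (δ ^ finrank ℝ E) ≤
      ENNReal.ofReal (ρ ^ finrank ℝ E) :=
    (ENNReal.mul_le_mul_iff_left (measure_ball_pos _ _ zero_lt_one).ne' measure_ball_lt_top.ne).1 I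
  have K : (s.card : ℝ) * δ ^ finrank ℝ E ≤ ρ ^ finrank ℝ E := by
    have := ENNReal.toReal_le_of_le_ofReal (pow_nonneg ρpos.le _) J
    rwa [ENNReal.toReal_mul, ENNReal.toReal_natCast, ENNReal.toReal_ofReal (by positivity)] at this
  have h2 : (2 * r + 1) ^ finrank ℝ E * δ ^ finrank ℝ E = ρ ^ finrank ℝ E := by
    rw [← mul_pow]
    congr 1
    simp only [δ, ρ]
    ring
  rw [← h2] at K
  exact le_of_mul_le_mul_right K (by positivity)

/-- integer vectors as points of the Euclidean space -/
noncomputable def toE {n : ℕ} : (Fin n → ℤ) →+ EuclideanSpace ℝ (Fin n) where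
  toFun z := WithLp.toLp 2 (fun i => (z i : ℝ))
  map_zero' := by ext i; simp
  map_add' x y := by ext i; simp

theorem toE_apply {n : ℕ} (z : Fin n → ℤ) (i : Fin n) : toE z i = (z i : ℝ) := rfl

theorem toE_inj {n : ℕ} : Function.Injective (toE (n := n)) := by
  intro x y h
  funext i
  have h1 : toE x i = toE y i := by rw [h]
  rw [toE_apply, toE_apply] at h1
  exact Int.cast_injective (α := ℝ) h1

theorem norm_toE {n : ℕ} (z : Fin n → ℤ) : ‖toE z‖ ^ 2 = (sq z : ℝ) := by
  rw [EuclideanSpace.norm_sq_eq]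
  unfold sq
  push_cast
  apply Finset.sum_congr rfl
  intro i _
  rw [toE_apply, Real.norm_eq_abs, sq_abs]

/-- A progression all of whose sides are `1` or at least `N₀`. -/
theorem long_sides {n p q ρ N₀ : ℕ} (hn : 1 ≤ n) (hq : 1 ≤ q) (hN₀ : 2 ≤ N₀) (u : Fin n → ZMod p)
    (hu : ∀ z ∈ Lat u, z ≠ 0 → (q : ℤ) ^ 2 * n < sq z) (d : ℕ) (a : Fin n → ℤ)
    (v : Fin d → Fin n → ℤ) (N : Fin d → ℕ) (hN : ∀ i, N i = 1 ∨ N₀ ≤ N i) :
    ∃ e : ℕ, N₀ ^ e ≤ (Prog a v N).ncard ∧
      ((((Bl u (ρ * q) 1 : Set (Fin n → ℤ)) ∩ Prog a v N).ncard : ℕ) : ℝ) ≤ (4 * (ρ : ℝ) + 1) ^ e := by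
  set ι := {i : Fin d // N₀ ≤ N i} with hι
  set w : ι → EuclideanSpace ℝ (Fin n) := fun i => toE (v i.1) with hw
  obtain ⟨κ, b, hb, hspan, hli⟩ := exists_linearIndependent' ℝ w
  have : Finite κ := Finite.of_injective b hb
  let _ : Fintype κ := Fintype.ofFinite κ
  set W := Submodule.span ℝ (Set.range w) with hW
  have hfr : finrank ℝ W = Fintype.card κ := by
    rw [← hspan]
    exact finrank_span_eq_card hli
  refine ⟨Fintype.card κ, ?_, ?_⟩
  · -- many points
    set J : κ → Fin d := fun j => (b j).1 with hJ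
    have hJi : Function.Injective J := fun x y h => hb (Subtype.ext h)
    set F : (κ → Fin N₀) → (Fin n → ℤ) := fun k => a + ∑ j, (k j : ℕ) • v (J j) with hF
    have hFi : Function.Injective F := by
      intro k l h
      have h1 : ∑ j, (k j : ℕ) • v (J j) = ∑ j, (l j : ℕ) • v (J j) := add_left_cancel h
      have h2 : ∑ j, ((k j : ℝ) - (l j : ℝ)) • (w ∘ b) j = 0 := by
        have h3 := congrArg toE h1
        rw [map_sum, map_sum] at h3
        simp only [map_nsmul] at h3
        simp only [sub_smul, Finset.sum_sub_distrib]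
        rw [sub_eq_zero]
        simp only [← Nat.cast_smul_eq_nsmul ℝ] at h3
        exact h3
      have h3 := Fintype.linearIndependent_iff.1 hli _ h2
      funext j
      have h4 := h3 j
      rw [sub_eq_zero] at h4
      exact Fin.ext (by exact_mod_cast h4)
    have hFP : Set.range F ⊆ Prog a v N := by
      rintro _ ⟨k, rfl⟩
      refine ⟨Function.extend J (fun j => (k j : ℕ)) 0, ?_, ?_⟩
      · intro i
        by_cases hi : ∃ j, J j = i
        · obtain ⟨j, rfl⟩ := hi
          rw [hJi.extend_apply]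
          exact (k j).2.trans_le (b j).2
        · rw [Function.extend_apply' _ _ _ hi]
          show 0 < N i
          rcases hN i with h | h <;> omega
      · rw [hF]
        simp only
        congr 1
        apply Fintype.sum_of_injective J hJi
        · intro i hi
          rw [Function.extend_apply' _ _ _ (by simpa using hi)]
          show (0 : ℕ) • v i = 0
          exact zero_smul _ _
        · intro j
          rw [hJi.extend_apply]
    calc N₀ ^ Fintype.card κ = Nat.card (κ → Fin N₀) := by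
          rw [Nat.card_eq_fintype_card, Fintype.card_fun, Fintype.card_fin]
      _ = (Set.range F).ncard := by
          rw [← Set.image_univ, Set.ncard_image_of_injective _ hFi, Set.ncard_univ]
      _ ≤ _ := Set.ncard_le_ncard hFP (prog_finite a v N)
  · -- few points of the ball
    rw [← hfr]
    by_cases hne : ((Bl u (ρ * q) 1 : Set (Fin n → ℤ)) ∩ Prog a v N).Nonempty
    swap
    · rw [Set.not_nonempty_iff_eq_empty] at hne
      rw [hne, Set.ncard_empty]
      push_cast
      positivity
    obtain ⟨x₀, hx₀⟩ := hne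
    have hqr : (0 : ℝ) < q := by exact_mod_cast hq
    have hnr : (0 : ℝ) < n := by exact_mod_cast hn
    set D : ℝ := q * √n with hD
    have hDpos : 0 < D := by positivity
    have hD2 : D ^ 2 = (q : ℝ) ^ 2 * n := by rw [hD, mul_pow, Real.sq_sqrt hnr.le]
    have hmemW : ∀ x ∈ Prog a v N, toE (x - x₀) ∈ W := by
      rintro x ⟨k, hk, rfl⟩
      obtain ⟨-, ⟨l, hl, rfl⟩⟩ := hx₀
      have h1 : a + ∑ i, k i • v i - (a + ∑ i, l i • v i) = ∑ i, ((k i : ℤ) - (l i : ℤ)) • v i := by
        simp only [sub_smul, Finset.sum_sub_distrib, natCast_zsmul]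
        abel
      rw [h1, map_sum]
      apply W.sum_mem
      intro i _
      rw [map_zsmul]
      rcases hN i with h | h
      · have h2 : k i = 0 := by have := hk i; omega
        have h3 : l i = 0 := by have := hl i; omega
        rw [h2, h3]
        simp
      · apply zsmul_mem
        exact Submodule.subset_span ⟨⟨i, h⟩, rfl⟩
    -- the normalised points
    set Φ : (Fin n → ℤ) → W := fun x =>
      if h : toE (x - x₀) ∈ W then D⁻¹ • (⟨toE (x - x₀), h⟩ : W) else 0 with hΦ
    have hΦv : ∀ x ∈ Prog a v N, ((Φ x : W) : EuclideanSpace ℝ (Fin n)) = D⁻¹ • toE (x - x₀) := by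
      intro x hx
      rw [hΦ]
      simp only [hmemW x hx, dif_pos]
      rfl
    have hfin : ((Bl u (ρ * q) 1 : Set (Fin n → ℤ)) ∩ Prog a v N).Finite :=
      (prog_finite a v N).subset Set.inter_subset_right
    set S : Finset (Fin n → ℤ) := hfin.toFinset with hS
    have hSm : ∀ x, x ∈ S ↔ x ∈ (Bl u (ρ * q) 1) ∧ x ∈ Prog a v N := by
      intro x
      rw [hS, Set.Finite.mem_toFinset]
      rfl
    have hball : ∀ x, x ∈ Bl u (ρ * q) 1 → x ∈ Lat u ∧ sq x ≤ ((ρ : ℤ) * q) ^ 2 * n := by
      intro x hx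
      have := (mem_Bl hn u _ _ _).1 hx
      push_cast at this
      rwa [one_mul] at this
    have hsep : ∀ x ∈ S, ∀ y ∈ S, x ≠ y → 1 < ‖Φ x - Φ y‖ := by
      intro x hx y hy hxy
      have hx' := (hSm x).1 hx
      have hy' := (hSm y).1 hy
      have h1 : ‖Φ x - Φ y‖ = D⁻¹ * ‖toE (x - y)‖ := by
        rw [← Submodule.norm_coe, Submodule.coe_sub, hΦv x hx'.2, hΦv y hy'.2, ← smul_sub, ← map_sub,
          sub_sub_sub_cancel_right, norm_smul, Real.norm_eq_abs, abs_of_pos (by positivity)]
      have h2 := hu (x - y) ((Lat u).sub_mem (hball x hx'.1).1 (hball y hy'.1).1) (sub_ne_zero.2 hxy)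
      have h3 : D ^ 2 < ‖toE (x - y)‖ ^ 2 := by
        rw [norm_toE, hD2]
        exact_mod_cast h2
      have h4 : D < ‖toE (x - y)‖ := lt_of_pow_lt_pow_left₀ 2 (norm_nonneg _) h3
      rw [h1, ← div_eq_inv_mul, one_lt_div hDpos]
      exact h4
    have hinj : Set.InjOn Φ (S : Set (Fin n → ℤ)) := by
      intro x hx y hy hxy
      by_contra hne
      have := hsep x hx y hy hne
      rw [hxy, sub_self, norm_zero] at this
      linarith
    have h1 := card_le_sep (S.image Φ) (2 * ρ) (by positivity) (by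
      intro c hc
      obtain ⟨x, hx, rfl⟩ := Finset.mem_image.1 hc
      have hx' := (hSm x).1 hx
      rw [← Submodule.norm_coe, hΦv x hx'.2, norm_smul, Real.norm_eq_abs, abs_of_pos (by positivity),
        ← div_eq_inv_mul, div_le_iff₀ hDpos]
      have h2 : ‖toE (x - x₀)‖ ^ 2 ≤ (2 * ρ * D) ^ 2 := by
        rw [norm_toE, mul_pow, hD2]
        have h3 := sq_sub_le x x₀
        have h4 := (hball x hx'.1).2
        have h5 := (hball x₀ hx₀.1).2
        have h6 : sq (x - x₀) ≤ 4 * (((ρ : ℤ) * q) ^ 2 * n) := by linarith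
        have h7 : (sq (x - x₀) : ℝ) ≤ ((4 * (((ρ : ℤ) * q) ^ 2 * n) : ℤ) : ℝ) := by
          exact_mod_cast h6
        push_cast at h7
        linarith
      exact le_of_sq_le_sq h2 (by positivity)) (by
      intro c hc c' hc' hcc
      obtain ⟨x, hx, rfl⟩ := Finset.mem_image.1 hc
      obtain ⟨y, hy, rfl⟩ := Finset.mem_image.1 hc'
      exact (hsep x hx y hy (fun h => hcc (by rw [h]))).le)
    rw [Finset.card_image_of_injOn hinj] at h1
    have h2 : ((Bl u (ρ * q) 1 : Set (Fin n → ℤ)) ∩ Prog a v N).ncard = S.card := by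
      rw [hS, Set.ncard_eq_toFinset_card _ hfin]
    rw [h2]
    refine h1.trans (le_of_eq ?_)
    ring

end Pool.Agent.R934.LB
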