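import Pool.Agent.R934.LB.Cube
set_option autoImplicit false
set_option linter.unusedVariables false

/-! Power saving: a translate of `m A - m A` meets a progression with `N₁ ⋯ N_d` parameters in few
points. -/

open scoped Classical Pointwise
open Finset

namespace Pool.Agent.R934.LB

/-- the elements of the box with coordinates zero outside `W` -/
noncomputable def blk {d : ℕ} (N : Fin d → ℕ) [hN : ∀ i, NeZero (N i)] (W : Finset (Fin d)) :
    Finset ((i : Fin d) → Fin (N i)) :=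
  Fintype.piFinset (fun i => if i ∈ W then Finset.univ else {0})

theorem mem_blk {d : ℕ} (N : Fin d → ℕ) [hN : ∀ i, NeZero (N i)] (W : Finset (Fin d))
    (s : (i : Fin d) → Fin (N i)) : s ∈ blk N W ↔ ∀ i, i ∉ W → s i = 0 := by
  unfold blk
  rw [Fintype.mem_piFinset]
  constructor
  · intro h i hi
    have := h i
    rw [if_neg hi, Finset.mem_singleton] at this
    exact this
  · intro h i
    split_ifs with hi
    · exact Finset.mem_univ _
    · rw [Finset.mem_singleton]; exact h i hi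

theorem card_blk {d : ℕ} (N : Fin d → ℕ) [hN : ∀ i, NeZero (N i)] (W : Finset (Fin d)) :
    (blk N W).card = ∏ i ∈ W, N i := by
  unfold blk
  rw [Fintype.card_piFinset]
  have : ∀ i : Fin d, (if i ∈ W then (Finset.univ : Finset (Fin (N i))) else {0}).card =
      if i ∈ W then N i else 1 := by
    intro i
    split_ifs
    · rw [Finset.card_univ, Fintype.card_fin]
    · rw [Finset.card_singleton]
  simp only [this]
  rw [Finset.prod_ite, Finset.prod_const_one, mul_one]
  congr 1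
  ext i; simp

/-- the points of a cube with disjoint blocks of directions -/
theorem cube_points {n d M : ℕ} (v : Fin d → Fin n → ℤ) (N : Fin d → ℕ) [hN : ∀ i, NeZero (N i)]
    (W : Fin M → Finset (Fin d)) (hW : ∀ j l, j ≠ l → Disjoint (W j) (W l))
    (s : Fin M → ((i : Fin d) → Fin (N i))) (hs : ∀ j, s j ∈ blk N (W j))
    (k : (i : Fin d) → Fin (N i)) (τ : Fin M → Bool) :
    ∑ i, (((k + ∑ j, (if τ j then s j else 0)) i : Fin (N i)) : ℕ) • v i =
      ∑ i, (k i : ℕ) • v i + ∑ j, (if τ j then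
        (∑ i, (((k + s j) i : Fin (N i)) : ℕ) • v i - ∑ i, (k i : ℕ) • v i) else 0) := by
  have hcoord : ∀ i, ((((k + ∑ j, (if τ j then s j else 0)) i : Fin (N i)) : ℕ) : ℤ) =
      ((k i : ℕ) : ℤ) + ∑ j, (if τ j then
        (((((k + s j) i : Fin (N i)) : ℕ) : ℤ) - ((k i : ℕ) : ℤ)) else 0) := by
    intro i
    by_cases hi : ∃ j, i ∈ W j
    · obtain ⟨j₀, hj₀⟩ := hi
      have hz : ∀ j, j ≠ j₀ → s j i = 0 := by
        intro j hj
        apply (mem_blk N (W j) (s j)).1 (hs j)
        intro h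
        exact Finset.disjoint_left.1 (hW j j₀ hj) h hj₀
      have h1 : (∑ j, (if τ j then s j else 0)) i = if τ j₀ then s j₀ i else 0 := by
        rw [Finset.sum_apply, Finset.sum_eq_single j₀]
        · split_ifs <;> rfl
        · intro j _ hj
          split_ifs
          · exact hz j hj
          · rfl
        · intro h; exact absurd (Finset.mem_univ _) h
      have h2 : ∑ j, (if τ j then
          (((((k + s j) i : Fin (N i)) : ℕ) : ℤ) - ((k i : ℕ) : ℤ)) else 0) =
          if τ j₀ then (((((k + s j₀) i : Fin (N i)) : ℕ) : ℤ) - ((k i : ℕ) : ℤ)) else 0 := by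
        apply Finset.sum_eq_single j₀
        · intro j _ hj
          split_ifs
          · rw [Pi.add_apply, hz j hj, add_zero, sub_self]
          · rfl
        · intro h; exact absurd (Finset.mem_univ _) h
      rw [Pi.add_apply, h1, h2]
      split_ifs
      · rw [Pi.add_apply]; ring
      · simp
    · push Not at hi
      have hz : ∀ j, s j i = 0 := fun j => (mem_blk N (W j) (s j)).1 (hs j) i (hi j)
      have h1 : (∑ j, (if τ j then s j else 0)) i = 0 := by
        rw [Finset.sum_apply]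
        apply Finset.sum_eq_zero
        intro j _
        split_ifs
        · exact hz j
        · rfl
      have h2 : ∑ j, (if τ j then
          (((((k + s j) i : Fin (N i)) : ℕ) : ℤ) - ((k i : ℕ) : ℤ)) else 0) = 0 := by
        apply Finset.sum_eq_zero
        intro j _
        split_ifs
        · rw [Pi.add_apply, hz j, add_zero, sub_self]
        · rfl
      rw [Pi.add_apply, h1, h2]
      simp
  have hL : ∑ i, (((k + ∑ j, (if τ j then s j else 0)) i : Fin (N i)) : ℕ) • v i =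
      ∑ i, ((((k i : ℕ) : ℤ) + ∑ j, (if τ j then
        (((((k + s j) i : Fin (N i)) : ℕ) : ℤ) - ((k i : ℕ) : ℤ)) else 0)) • v i) := by
    apply Finset.sum_congr rfl
    intro i _
    rw [← hcoord i, natCast_zsmul]
  rw [hL]
  simp only [add_smul, Finset.sum_add_distrib, natCast_zsmul]
  congr 1
  simp only [Finset.sum_smul]
  rw [Finset.sum_comm]
  apply Finset.sum_congr rfl
  intro j _
  by_cases hτ : τ j
  · simp only [hτ, if_true]
    rw [← Finset.sum_sub_distrib]
    apply Finset.sum_congr rfl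
    intro i _
    rw [sub_smul, natCast_zsmul, natCast_zsmul]
  · simp only [hτ]
    simp

/-- **Power saving.** A translate of `m A - m A` meets a progression with `N₁ ⋯ N_d` parameters in a
proportion `η` of this number only if the number is at most a power of `1 / η`. -/
theorem power {n p q ρ : ℕ} (hn : 1 ≤ n) (hq : 1 ≤ q) (hρ : 1 ≤ ρ) (u : Fin n → ZMod p)
    (hu : ∀ z ∈ Lat u, z ≠ 0 → (q : ℤ) ^ 2 * n < sq z) (m d : ℕ) (hm : 1 ≤ m) (x a : Fin n → ℤ)
    (v : Fin d → Fin n → ℤ) (hv : ∀ i, v i ∈ Lat u) (N : Fin d → ℕ) (η : ℝ) (hη : 0 < η)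
    (hP : η * ((∏ i, N i : ℕ) : ℝ) ≤
      ((Prog a v N ∩ Transl (Bl u (ρ * q) 1 : Set (Fin n → ℤ)) m x).ncard : ℝ)) :
    ((∏ i, N i : ℕ) : ℝ) ≤ ((2 * (2 / η) ^ (2 ^ (16 * m ^ 2 * ρ ^ 2))) *
      ((4 * m * ρ + 1) / η)) ^ (16 * m ^ 2 * ρ ^ 2) := by
  by_cases hN : ∃ i, N i = 0
  · obtain ⟨i, hi⟩ := hN
    rw [Finset.prod_eq_zero (Finset.mem_univ i) hi]
    push_cast
    positivity
  push Not at hN
  have hN1 : ∀ i, 1 ≤ N i := fun i => Nat.one_le_iff_ne_zero.2 (hN i)
  have hNZ : ∀ i, NeZero (N i) := fun i => ⟨hN i⟩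
  set φ : ((i : Fin d) → Fin (N i)) → (Fin n → ℤ) := fun k => a + ∑ i, (k i : ℕ) • v i with hφ
  set T : Set (Fin n → ℤ) := Prog a v N ∩ Transl (Bl u (ρ * q) 1 : Set (Fin n → ℤ)) m x with hT
  have hTfin : T.Finite := (prog_finite a v N).subset Set.inter_subset_left
  -- representatives
  have hrep : ∀ y ∈ T, ∃ k : (i : Fin d) → Fin (N i), φ k = y := by
    rintro y ⟨⟨k, hk, rfl⟩, -⟩
    exact ⟨fun i => ⟨k i, hk i⟩, rfl⟩
  choose! g hg using hrep
  set E : Finset ((i : Fin d) → Fin (N i)) := hTfin.toFinset.image g with hE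
  have hEmem : ∀ k ∈ E, φ k ∈ T ∧ g (φ k) = k := by
    intro k hk
    obtain ⟨y, hy, rfl⟩ := Finset.mem_image.1 hk
    have hy' : y ∈ T := hTfin.mem_toFinset.1 hy
    rw [hg y hy']
    exact ⟨hy', rfl⟩
  have hEinj : ∀ k ∈ E, ∀ l ∈ E, φ k = φ l → k = l := by
    intro k hk l hl h
    rw [← (hEmem k hk).2, ← (hEmem l hl).2, h]
  have hEcard : T.ncard = E.card := by
    rw [hE, Finset.card_image_of_injOn, Set.ncard_eq_toFinset_card _ hTfin]
    intro y hy z hz h
    have hy' : y ∈ T := hTfin.mem_toFinset.1 hy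
    have hz' : z ∈ T := hTfin.mem_toFinset.1 hz
    rw [← hg y hy', ← hg z hz', h]
  have hcardG : Fintype.card ((i : Fin d) → Fin (N i)) = ∏ i, N i := by
    rw [Fintype.card_pi]
    simp only [Fintype.card_fin]
  have hE2 : η * (Fintype.card ((i : Fin d) → Fin (N i)) : ℝ) ≤ (E.card : ℝ) := by
    rw [hcardG, ← hEcard]; exact hP
  have hball : ∀ k ∈ E, sq (φ k - x) ≤ (m : ℤ) ^ 2 * (4 * (((ρ * q : ℕ) : ℤ) ^ 2 * n)) :=
    fun k hk => (transl_bound hn u _ _ _ _ (hEmem k hk).1.2).2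
  have hqn : (0 : ℤ) < (q : ℤ) ^ 2 * n := by
    have h10 : (0 : ℤ) < n := by exact_mod_cast hn
    have h11 : (0 : ℤ) < q := by exact_mod_cast hq
    positivity
  have h3 : (0 : ℝ) < ((∏ i, N i : ℕ) : ℝ) := by
    exact_mod_cast Finset.prod_pos fun i _ => Nat.pos_of_ne_zero (hN i)
  have hηle : η ≤ 1 := by
    have h1 : E.card ≤ ∏ i, N i := by
      rw [← hcardG]; exact Finset.card_le_univ _
    have h2 : (E.card : ℝ) ≤ ((∏ i, N i : ℕ) : ℝ) := by exact_mod_cast h1
    rw [hcardG] at hE2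
    by_contra hcon
    push Not at hcon
    nlinarith
  set S : ℝ := (4 * m * ρ + 1) / η with hS
  have hmr : (1 : ℝ) ≤ m := by exact_mod_cast hm
  have hρr : (1 : ℝ) ≤ ρ := by exact_mod_cast hρ
  have hS1 : 1 ≤ S := by
    rw [hS, le_div_iff₀ hη]
    nlinarith
  -- the sides
  have hside : ∀ i, (N i : ℝ) ≤ S := by
    intro i
    have h1 := short_side (4 * m * ρ) a v N i E (by
      intro k hk l hl hkl
      have h2 := hball k hk
      have h3 := hball l hl
      have h4 := sq_sub_le (φ k - x) (φ l - x)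
      have h6 : φ k - φ l = (((k i : ℕ) : ℤ) - ((l i : ℕ) : ℤ)) • v i := by
        have h7 : φ k - φ l = ∑ j, (((k j : ℕ) : ℤ) - ((l j : ℕ) : ℤ)) • v j := by
          simp only [hφ, sub_smul, Finset.sum_sub_distrib, natCast_zsmul]
          abel
        rw [h7]
        apply Finset.sum_eq_single i
        · intro j _ hj
          rw [hkl j hj, sub_self, zero_smul]
        · intro h
          exact absurd (Finset.mem_univ _) h
      by_cases hvi : v i = 0
      · rw [hvi, smul_zero, sub_eq_zero] at h6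
        rw [hEinj k hk l hl h6]
        omega
      have h5 : φ k - x - (φ l - x) = (((k i : ℕ) : ℤ) - ((l i : ℕ) : ℤ)) • v i := by
        rw [← h6]; abel
      rw [h5, sq_smul] at h4
      have h7 := hu _ (hv i) hvi
      by_contra hcon
      push Not at hcon
      have h8 : ((4 * m * ρ : ℕ) : ℤ) < ((k i : ℕ) : ℤ) - ((l i : ℕ) : ℤ) := by
        have : (l i : ℕ) + 4 * m * ρ < (k i : ℕ) := hcon
        push_cast
        zify at this
        linarith
      set t : ℤ := ((k i : ℕ) : ℤ) - ((l i : ℕ) : ℤ) with ht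
      have h9 : ((4 * m * ρ : ℕ) : ℤ) ^ 2 < t ^ 2 := pow_lt_pow_left₀ h8 (by positivity) (by norm_num)
      have h10 : t ^ 2 * ((q : ℤ) ^ 2 * n) ≤ t ^ 2 * sq (v i) :=
        mul_le_mul_of_nonneg_left h7.le (sq_nonneg _)
      have h11 : ((4 * m * ρ : ℕ) : ℤ) ^ 2 * ((q : ℤ) ^ 2 * n) < t ^ 2 * ((q : ℤ) ^ 2 * n) :=
        mul_lt_mul_of_pos_right h9 hqn
      have h12 : 2 * ((m : ℤ) ^ 2 * (4 * (((ρ * q : ℕ) : ℤ) ^ 2 * n))) +
          2 * ((m : ℤ) ^ 2 * (4 * (((ρ * q : ℕ) : ℤ) ^ 2 * n))) =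
          ((4 * m * ρ : ℕ) : ℤ) ^ 2 * ((q : ℤ) ^ 2 * n) := by push_cast; ring
      linarith)
    have h2 : (N i : ℝ) * E.card ≤ ((∏ i, N i : ℕ) : ℝ) * (4 * m * ρ + 1) := by exact_mod_cast h1
    rw [hS, le_div_iff₀ hη]
    have hE3 : η * ((∏ i, N i : ℕ) : ℝ) ≤ (E.card : ℝ) := by rw [← hcardG]; exact hE2
    have h4 : (N i : ℝ) * (η * ((∏ i, N i : ℕ) : ℝ)) ≤ ((∏ i, N i : ℕ) : ℝ) * (4 * m * ρ + 1) :=
      (mul_le_mul_of_nonneg_left hE3 (Nat.cast_nonneg _)).trans h2
    have h5 : ((∏ i, N i : ℕ) : ℝ) * ((N i : ℝ) * η) ≤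
        ((∏ i, N i : ℕ) : ℝ) * (4 * m * ρ + 1) := by linarith
    exact le_of_mul_le_mul_left h5 h3
  -- suppose the product is large
  set M : ℕ := 16 * m ^ 2 * ρ ^ 2 with hM
  set Y : ℝ := 2 * (2 / η) ^ (2 ^ M) with hY
  have hx1 : 1 ≤ 2 / η := by rw [le_div_iff₀ hη]; linarith
  have hY1 : 1 ≤ Y := by
    rw [hY]
    have := one_le_pow₀ hx1 (n := 2 ^ M)
    linarith
  by_contra hcon
  push Not at hcon
  have hprod : (Y * S) ^ M ≤ ∏ i, (N i : ℝ) := by
    have : ((∏ i, N i : ℕ) : ℝ) = ∏ i, (N i : ℝ) := by push_cast; rfl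
    rw [← this]
    exact hcon.le
  obtain ⟨W, -, hW1, hW2⟩ := exists_blocks (fun i => (N i : ℝ)) S Y hY1 hS1 M Finset.univ
    (fun i _ => ⟨by exact_mod_cast hN1 i, hside i⟩) hprod
  obtain ⟨s, k, hs, hk⟩ := cube M (fun j => blk N (W j))
    (fun j => (mem_blk N _ _).2 fun i _ => rfl)
    (fun j s hs t ht => (mem_blk N _ _).2 fun i hi => by
      rw [Pi.sub_apply, (mem_blk N _ _).1 hs i hi, (mem_blk N _ _).1 ht i hi, sub_zero])
    (fun j s hs t ht => (mem_blk N _ _).2 fun i hi => by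
      rw [Pi.add_apply, (mem_blk N _ _).1 hs i hi, (mem_blk N _ _).1 ht i hi, add_zero])
    E η hη hηle hE2 (fun j => by
      show 2 * (2 / η) ^ (2 ^ M) ≤ ((blk N (W j)).card : ℝ)
      rw [card_blk]
      push_cast
      exact hW1 j)
  -- the vectors of the cube
  set w : Fin M → (Fin n → ℤ) := fun j => φ (k + s j) - φ k with hw
  have hpt : ∀ τ : Fin M → Bool, φ (k + ∑ j, (if τ j then s j else 0)) =
      φ k + ∑ j, (if τ j then w j else 0) := by
    intro τ
    have h1 := cube_points v N W hW2 s (fun j => (hs j).1) k τ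
    simp only [hφ, hw]
    rw [h1, add_assoc]
    congr 2
    apply Finset.sum_congr rfl
    intro j _
    split_ifs
    · abel
    · rfl
  have hkE : k ∈ E := by
    have := hk (fun _ => false)
    simpa using this
  have hksE : ∀ j, k + s j ∈ E := by
    intro j
    have h1 := hk (fun l => decide (l = j))
    have h2 : ∑ l, (if decide (l = j) = true then s l else 0) = s j := by
      rw [Finset.sum_eq_single j]
      · simp
      · intro l _ hl; simp [hl]
      · intro h; exact absurd (Finset.mem_univ _) h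
    rwa [h2] at h1
  have hwne : ∀ j, w j ≠ 0 := by
    intro j h
    rw [hw] at h
    simp only at h
    rw [sub_eq_zero] at h
    have h1 := hEinj _ (hksE j) _ hkE h
    exact (hs j).2 (by simpa using h1)
  have hwL : ∀ j, w j ∈ Lat u := by
    intro j
    have h1 := (transl_bound hn u _ _ _ _ (hEmem _ (hksE j)).1.2).1
    have h2 := (transl_bound hn u _ _ _ _ (hEmem _ hkE).1.2).1
    have h3 := (Lat u).sub_mem h1 h2
    have h4 : φ (k + s j) - x - (φ k - x) = w j := by rw [hw]; simp only; abel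
    rwa [h4] at h3
  -- a far vertex
  set c : Fin n → ℤ := (2 : ℤ) • (φ k - x) + ∑ j, w j with hc
  obtain ⟨σ, hσ, hsig⟩ := exists_signs Finset.univ w c
  set τ : Fin M → Bool := fun j => decide (σ j = 1) with hτ
  have h4 : c + ∑ j, σ j • w j = (2 : ℤ) • (φ (k + ∑ j, (if τ j then s j else 0)) - x) := by
    rw [hpt τ, hc]
    have h5 : ∑ j, w j + ∑ j, σ j • w j = (2 : ℤ) • ∑ j, (if τ j then w j else 0) := by
      rw [← Finset.sum_add_distrib, Finset.smul_sum]
      apply Finset.sum_congr rfl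
      intro j _
      rcases hσ j with h | h
      · have h6 : τ j = true := by simp [hτ, h]
        rw [h, h6, one_smul, if_pos rfl, two_smul]
      · have h6 : τ j = false := by simp [hτ, h]
        rw [h, h6]
        simp
    calc (2 : ℤ) • (φ k - x) + ∑ j, w j + ∑ j, σ j • w j
        = (2 : ℤ) • (φ k - x) + (∑ j, w j + ∑ j, σ j • w j) := by abel
      _ = (2 : ℤ) • (φ k - x) + (2 : ℤ) • ∑ j, (if τ j then w j else 0) := by rw [h5]
      _ = (2 : ℤ) • (φ k + ∑ j, (if τ j then w j else 0) - x) := by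
          rw [← smul_add]; congr 1; abel
  rw [h4, sq_smul] at hsig
  have h5 := hball _ (hk τ)
  have h6 : (M : ℤ) * ((q : ℤ) ^ 2 * n) < ∑ j, sq (w j) := by
    have hMpos : 0 < M := by rw [hM]; positivity
    calc (M : ℤ) * ((q : ℤ) ^ 2 * n) = ∑ j : Fin M, ((q : ℤ) ^ 2 * n) := by
          rw [Finset.sum_const, Finset.card_univ, Fintype.card_fin, nsmul_eq_mul]
      _ < ∑ j, sq (w j) := by
          apply Finset.sum_lt_sum_of_nonempty
          · exact ⟨⟨0, hMpos⟩, Finset.mem_univ _⟩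
          · intro j _
            exact hu _ (hwL j) (hwne j)
  have h7 : (M : ℤ) * ((q : ℤ) ^ 2 * n) = 2 ^ 2 *
      ((m : ℤ) ^ 2 * (4 * (((ρ * q : ℕ) : ℤ) ^ 2 * n))) := by
    rw [hM]; push_cast; ring
  have h8 := sq_nonneg' c
  linarith

end Pool.Agent.R934.LB
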